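import Pool.Agent.R595.NST.Defs

/-!
# Special sets and the ideal `NS^T`: basic facts
-/

set_option autoImplicit false

universe u v

namespace Pool.Agent.R595.NST

open Cardinal Ordinal

section Special
variable {T : Type u} [PartialOrder T]

theorem special_iff (U : Set T) :
    Special U ↔ ∃ c : T → ℕ, ∀ s ∈ U, ∀ t ∈ U, s < t → c s ≠ c t := by
  classical
  constructor
  · rintro ⟨A, hA, rfl⟩
    have h : ∀ t : T, ∃ n, (t ∈ ⋃ n, A n) → t ∈ A n := by
      intro t
      by_cases ht : t ∈ ⋃ n, A n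
      · obtain ⟨n, hn⟩ := Set.mem_iUnion.1 ht
        exact ⟨n, fun _ => hn⟩
      · exact ⟨0, fun h => absurd h ht⟩
    choose c hc using h
    refine ⟨c, fun s hs t ht hst heq => ?_⟩
    have h1 := hc s hs
    have h2 := hc t ht
    rw [← heq] at h2
    exact hA _ h1 h2 hst.ne hst.le
  · rintro ⟨c, hc⟩
    refine ⟨fun n => {t | t ∈ U ∧ c t = n}, ?_, ?_⟩
    · rintro n s ⟨hs, hs'⟩ t ⟨ht, ht'⟩ hne hle
      exact hc s hs t ht (lt_of_le_of_ne hle hne) (hs'.trans ht'.symm)
    · ext t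
      simp

theorem Special.mono {U V : Set T} (h : Special U) (hV : V ⊆ U) : Special V := by
  rw [special_iff] at h ⊢
  obtain ⟨c, hc⟩ := h
  exact ⟨c, fun s hs t ht => hc s (hV hs) t (hV ht)⟩

theorem special_of_isAntichain {U : Set T} (h : IsAntichain (· ≤ ·) U) : Special U := by
  rw [special_iff]
  exact ⟨fun _ => 0, fun s hs t ht hst => absurd hst.le (h hs ht hst.ne)⟩

theorem Special.iUnion {ι : Sort v} [Countable ι] {U : ι → Set T} (h : ∀ i, Special (U i)) :
    Special (⋃ i, U i) := by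
  classical
  rcases isEmpty_or_nonempty ι with hι | hι
  · rw [Set.iUnion_of_empty]
    exact special_of_isAntichain (by intro a ha; exact ha.elim)
  obtain ⟨e, he⟩ := exists_surjective_nat ι
  choose A hA hU using h
  refine ⟨fun n => A (e n.unpair.1) n.unpair.2, fun n => hA _ _, ?_⟩
  ext t
  simp only [Set.mem_iUnion]
  constructor
  · rintro ⟨i, hi⟩
    rw [hU i] at hi
    obtain ⟨n, hn⟩ := Set.mem_iUnion.1 hi
    obtain ⟨m, rfl⟩ := he i
    refine ⟨Nat.pair m n, ?_⟩
    simpa using hn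
  · rintro ⟨n, hn⟩
    refine ⟨e n.unpair.1, ?_⟩
    rw [hU]
    exact Set.mem_iUnion.2 ⟨_, hn⟩

theorem Special.biUnion {ι : Type v} {J : Set ι} (hJ : J.Countable) {U : ι → Set T}
    (h : ∀ i ∈ J, Special (U i)) : Special (⋃ i ∈ J, U i) := by
  have : Countable J := hJ
  rw [Set.biUnion_eq_iUnion]
  exact Special.iUnion fun i => h i.1 i.2

theorem Special.sUnion {J : Set (Set T)} (hJ : J.Countable) (h : ∀ U ∈ J, Special U) :
    Special (⋃₀ J) := by
  rw [Set.sUnion_eq_biUnion]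
  exact Special.biUnion hJ h

theorem Special.union {U V : Set T} (hU : Special U) (hV : Special V) : Special (U ∪ V) := by
  rw [Set.union_eq_iUnion]
  exact Special.iUnion fun b => by cases b <;> assumption

theorem special_singleton (t : T) : Special ({t} : Set T) := by
  refine special_of_isAntichain ?_
  rintro a ha b hb hne
  exact absurd ((Set.mem_singleton_iff.1 ha).trans (Set.mem_singleton_iff.1 hb).symm) hne

/-- countably many levels are special -/
theorem special_of_bounded (l : T → Ordinal.{v}) (hl : ∀ s t, s < t → l s < l t)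
    {β : Ordinal.{v}} (hβ : β < ω₁) : Special {t | l t ≤ β} := by
  have h1 : (Set.Iic β).Countable := by
    have h2 : Set.Iic β = Set.Iio (Order.succ β) := by
      ext x
      simp
    rw [h2, ← Cardinal.le_aleph0_iff_set_countable, Cardinal.mk_Iio_ordinal]
    have h3 : (Order.succ β).card < ℵ₁ := by
      rw [Cardinal.lt_ord.symm, Cardinal.ord_aleph]
      exact (Cardinal.isSuccLimit_omega 1).succ_lt hβ
    have h4 : (Order.succ β).card ≤ ℵ₀ := by
      rw [← Order.lt_succ_iff, Cardinal.succ_aleph0]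
      exact h3
    exact Cardinal.lift_le_aleph0.2 h4
  have h5 : {t : T | l t ≤ β} = ⋃ α ∈ Set.Iic β, {t | l t = α} := by
    ext t
    simp
  rw [h5]
  refine Special.biUnion h1 fun α _ => special_of_isAntichain ?_
  rintro s hs t ht hne hle
  have h6 := hl s t (lt_of_le_of_ne hle hne)
  rw [Set.mem_setOf_eq] at hs ht
  rw [hs, ht] at h6
  exact lt_irrefl _ h6

end Special

section NS
variable {T : Type u} [PartialOrder T] [OrderBot T]

theorem NSup.mono {B C : Set T} (h : NSup B) (hC : C ⊆ B) : NSup C := by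
  obtain ⟨f, h1, h2⟩ := h
  exact ⟨f, fun t ht => h1 t (hC ht), fun s => (h2 s).mono fun t ht => ⟨hC ht.1, ht.2⟩⟩

theorem NSup.iUnion {ι : Type v} [Countable ι] {B : ι → Set T} (h : ∀ i, NSup (B i)) :
    NSup (⋃ i, B i) := by
  classical
  choose f h1 h2 using h
  have h3 : ∀ t : T, ∃ s : T, (t ∈ ⋃ i, B i) → ∃ i, t ∈ B i ∧ s = f i t := by
    intro t
    by_cases ht : t ∈ ⋃ i, B i
    · obtain ⟨i, hi⟩ := Set.mem_iUnion.1 ht
      exact ⟨f i t, fun _ => ⟨i, hi, rfl⟩⟩
    · exact ⟨t, fun h => absurd h ht⟩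
  choose g hg using h3
  refine ⟨g, fun t ht hne => ?_, fun s => ?_⟩
  · obtain ⟨i, hi, h4⟩ := hg t ht
    rw [h4]
    exact h1 i t hi hne
  · refine (Special.iUnion fun i => h2 i s).mono ?_
    rintro t ⟨ht, hts⟩
    obtain ⟨i, hi, h4⟩ := hg t ht
    exact Set.mem_iUnion.2 ⟨i, hi, h4.symm.trans hts⟩

theorem NSup.union {B C : Set T} (hB : NSup B) (hC : NSup C) : NSup (B ∪ C) := by
  rw [Set.union_eq_iUnion]
  exact NSup.iUnion fun b => by cases b <;> assumption

/-- Diagonal unions. -/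
theorem NSup.diag {J : Type v} (hchain : ∀ t : T, ∀ a ≤ t, ∀ b ≤ t, a ≤ b ∨ b ≤ a)
    (hcount : ∀ t : T, (Set.Iic t).Countable) (B : J → Set T) (hB : ∀ j, NSup (B j))
    (r : T → Set J) (hr : ∀ s t, s ≤ t → r s ⊆ r t) (hrc : ∀ s, (r s).Countable) :
    NSup {t | ∃ s < t, ∃ j ∈ r s, t ∈ B j} := by
  classical
  choose f h1 h2 using hB
  have h3 : ∀ t : T, ∃ u : T, (t ∈ {t | ∃ s < t, ∃ j ∈ r s, t ∈ B j}) →
      u < t ∧ ∃ s ≤ u, ∃ j ∈ r s, t ∈ B j ∧ f j t ≤ u := by
    intro t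
    by_cases ht : ∃ s < t, ∃ j ∈ r s, t ∈ B j
    · obtain ⟨s, hs, j, hj, htj⟩ := ht
      have hne : t ≠ ⊥ := by
        rintro rfl
        exact not_lt_bot hs
      have h4 := h1 j t htj hne
      rcases hchain t s hs.le (f j t) h4.le with h5 | h5
      · exact ⟨f j t, fun _ => ⟨h4, s, h5, j, hj, htj, le_rfl⟩⟩
      · exact ⟨s, fun _ => ⟨hs, s, le_rfl, j, hj, htj, h5⟩⟩
    · exact ⟨t, fun h => absurd h ht⟩
  choose g hg using h3
  refine ⟨g, fun t ht _ => (hg t ht).1, fun u => ?_⟩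
  have h4 : Special (⋃ j ∈ r u, ⋃ s ∈ Set.Iic u, {t | t ∈ B j ∧ f j t = s}) :=
    Special.biUnion (hrc u) fun j _ => Special.biUnion (hcount u) fun s _ => h2 j s
  refine h4.mono ?_
  rintro t ⟨ht, rfl⟩
  obtain ⟨h5, s, hs, j, hj, htj, h6⟩ := hg t ht
  simp only [Set.mem_iUnion]
  exact ⟨j, hr s _ hs hj, f j t, h6, htj, rfl⟩

/-- A regressive function whose fibres have bounded heights. -/
theorem NSup.of_bounded (l : T → Ordinal.{v}) (hl : ∀ s t, s < t → l s < l t) {B : Set T}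
    (f : T → T) (hf : ∀ t ∈ B, t ≠ ⊥ → f t < t)
    (hb : ∀ s : T, ∃ β < ω₁, ∀ t ∈ B, f t = s → l t ≤ β) : NSup B := by
  refine ⟨f, hf, fun s => ?_⟩
  obtain ⟨β, h1, h2⟩ := hb s
  exact (special_of_bounded l hl h1).mono fun t ht => h2 t ht.1 ht.2

/-- A special set is in `NS^T`. -/
theorem NSup.of_special {B : Set T} (h : Special B) : NSup B := by
  classical
  refine ⟨fun _ => ⊥, fun t _ hne => bot_lt_iff_ne_bot.2 hne, fun s => h.mono fun t ht => ht.1⟩

/-- A downward closed set in `NS^T` is special (Todorcevic). -/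
theorem special_of_nsup [WellFoundedLT T]
    (hchain : ∀ t : T, ∀ a ≤ t, ∀ b ≤ t, a ≤ b ∨ b ≤ a) {D : Set T}
    (hD : ∀ t ∈ D, ∀ s ≤ t, s ∈ D) (h : NSup D) : Special D := by
  classical
  obtain ⟨f, h1, h2⟩ := h
  have h2' : ∀ s : T, ∃ c : T → ℕ, ∀ a, (a ∈ D ∧ f a = s) → ∀ b, (b ∈ D ∧ f b = s) → a < b →
      c a ≠ c b := fun s => (special_iff _).1 (h2 s)
  choose c hc using h2'
  -- the list of colours along the descent
  have h3 : ∃ L : T → List ℕ, ∀ t, L t = if t ∈ D ∧ t ≠ ⊥ then c (f t) t :: L (f t) else [] := by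
    have hex : ∀ t : T, (t ∈ D ∧ t ≠ ⊥) → f t < t := fun t ht => h1 t ht.1 ht.2
    let F : (t : T) → ((s : T) → s < t → List ℕ) → List ℕ := fun t L =>
      if h : t ∈ D ∧ t ≠ ⊥ then c (f t) t :: L (f t) (hex t h) else []
    refine ⟨wellFounded_lt.fix F, fun t => ?_⟩
    rw [wellFounded_lt.fix_eq]
    by_cases h : t ∈ D ∧ t ≠ ⊥
    · simp only [F, dif_pos h, if_pos h]
    · simp only [F, dif_neg h, if_neg h]
  obtain ⟨L, hL⟩ := h3
  have key : ∀ n : ℕ, ∀ a ∈ D, ∀ b ∈ D, (a ≤ b ∨ b ≤ a) → (L a).length = n → L a = L b → a = b := by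
    intro n
    induction n with
    | zero =>
      intro a ha b hb _ hn heq
      have ha' : ¬ (a ∈ D ∧ a ≠ ⊥) := by
        intro h
        rw [hL a, if_pos h] at hn
        simp at hn
      have hb' : ¬ (b ∈ D ∧ b ≠ ⊥) := by
        intro h
        rw [heq, hL b, if_pos h] at hn
        simp at hn
      have ha2 : a = ⊥ := by
        by_contra hne
        exact ha' ⟨ha, hne⟩
      have hb2 : b = ⊥ := by
        by_contra hne
        exact hb' ⟨hb, hne⟩
      rw [ha2, hb2]
    | succ n ih =>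
      intro a ha b hb hab hn heq
      have ha' : a ∈ D ∧ a ≠ ⊥ := by
        by_contra h
        rw [hL a, if_neg h] at hn
        simp at hn
      have hb' : b ∈ D ∧ b ≠ ⊥ := by
        by_contra h
        rw [heq, hL b, if_neg h] at hn
        simp at hn
      rw [hL a, hL b, if_pos ha', if_pos hb', List.cons.injEq] at heq
      rw [hL a, if_pos ha', List.length_cons] at hn
      have hfa := h1 a ha ha'.2
      have hfb := h1 b hb hb'.2
      have hcmp : f a ≤ f b ∨ f b ≤ f a := by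
        rcases hab with h | h
        · exact hchain b (f a) (hfa.le.trans h) (f b) hfb.le
        · exact hchain a (f a) hfa.le (f b) (hfb.le.trans h)
      have hff : f a = f b := ih (f a) (hD a ha _ hfa.le) (f b) (hD b hb _ hfb.le) hcmp
        (by omega) heq.2
      by_contra hne
      have hcab := heq.1
      rw [← hff] at hcab
      rcases hab with h | h
      · exact hc (f a) a ⟨ha, rfl⟩ b ⟨hb, hff.symm⟩ (lt_of_le_of_ne h hne) hcab
      · exact hc (f a) b ⟨hb, hff.symm⟩ a ⟨ha, rfl⟩ (lt_of_le_of_ne h (Ne.symm hne)) hcab.symm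
  obtain ⟨enc, henc⟩ : ∃ enc : List ℕ → ℕ, Function.Injective enc :=
    ⟨Encodable.encode, Encodable.encode_injective⟩
  refine (special_iff D).2 ⟨fun t => enc (L t), fun s hs t ht hst heq => ?_⟩
  exact hst.ne (key _ s hs t ht (Or.inl hst.le) rfl (henc heq))

end NS

section TreeFacts
variable {T : Type} [Tree T]

instance Tree.instWF : WellFoundedLT T := by
  refine ⟨⟨fun t => ?_⟩⟩
  have hw := Tree.wo t
  have h1 : ∀ a : Set.Iio t, Acc (· < ·) (a : T) := by
    intro a
    have h2 : WellFounded (fun a b : Set.Iio t => a < b) := hw.wf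
    induction a using h2.induction with
    | _ a ih =>
      refine Acc.intro _ fun b hb => ?_
      exact ih ⟨b, hb.trans a.2⟩ hb
  exact Acc.intro _ fun b hb => h1 ⟨b, hb⟩

theorem tree_chain (t : T) : ∀ a ≤ t, ∀ b ≤ t, a ≤ b ∨ b ≤ a := by
  intro a ha b hb
  rcases ha.eq_or_lt with rfl | ha
  · exact Or.inr hb
  rcases hb.eq_or_lt with rfl | hb
  · exact Or.inl ha.le
  have hw := Tree.wo t
  have h1 : (⟨a, ha⟩ : Set.Iio t) < ⟨b, hb⟩ ∨ (⟨a, ha⟩ : Set.Iio t) = ⟨b, hb⟩ ∨
      (⟨b, hb⟩ : Set.Iio t) < ⟨a, ha⟩ := by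
    by_contra hcon
    rw [not_or, not_or] at hcon
    exact hcon.2.1 (hw.trichotomous _ _ hcon.1 hcon.2.2)
  rcases h1 with h | h | h
  · exact Or.inl (le_of_lt h)
  · exact Or.inl (le_of_eq (congrArg Subtype.val h))
  · exact Or.inr (le_of_lt h)

theorem ht_lt {s t : T} (h : s < t) : ht s < ht t := by
  have := Tree.wo s
  have := Tree.wo t
  have key : ht s = Ordinal.typein (fun a b : Set.Iio t => a < b) ⟨s, h⟩ := by
    unfold ht Ordinal.typein
    refine Ordinal.type_eq.2 ⟨⟨⟨fun a => ⟨⟨a.1, a.2.trans h⟩, a.2⟩, fun a => ⟨a.1.1, a.2⟩,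
      fun _ => rfl, fun _ => rfl⟩, Iff.rfl⟩⟩
  rw [key]
  exact Ordinal.typein_lt_type _ _

theorem tree_countable (hT : ∀ t : T, ht t < ω₁) (t : T) : (Set.Iic t).Countable := by
  have h1 : (Set.Iio t).Countable := by
    rw [← Cardinal.le_aleph0_iff_set_countable]
    have h2 : #(Set.Iio t) = (ht t).card := by
      have := Tree.wo t
      exact (Ordinal.card_type _).symm
    rw [h2, ← Order.lt_succ_iff, Cardinal.succ_aleph0, Cardinal.lt_ord.symm, Cardinal.ord_aleph]
    exact hT t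
  have h3 : Set.Iic t = insert t (Set.Iio t) := by
    ext x
    simp [le_iff_eq_or_lt]
  rw [h3]
  exact h1.insert t

end TreeFacts

end Pool.Agent.R595.NST
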