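import Pool.Agent.R595.NST.PosFinal

/-!
# Clubs of `ω₁` and `ω₂`, and normal ideals
-/

set_option autoImplicit false

namespace Pool.Agent.R595.NST

open Cardinal Ordinal

/-- regularity of an ordinal -/
structure RegO (κ : Ordinal.{0}) : Prop where
  pos : 0 < κ
  succ : ∀ α < κ, Order.succ α < κ
  bdd : ∀ α < κ, ∀ f : Ordinal.{0} → Ordinal.{0}, (∀ ξ < α, f ξ < κ) →
    ∃ β < κ, ∀ ξ < α, f ξ < β
  cnt : ∀ f : ℕ → Ordinal.{0}, (∀ n, f n < κ) → ∃ β < κ, ∀ n, f n < β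

theorem bdd_of_cof {κ : Ordinal.{0}} (s : Set Ordinal.{0}) (hs : #s < (Ordinal.lift.{1} κ).cof)
    (h : ∀ i ∈ s, i < κ) : ∃ β < κ, ∀ i ∈ s, i < β := by
  refine ⟨_, sSup_add_one_lt_of_lt_cof hs h, fun i hi => ?_⟩
  have h1 : BddAbove ((· + 1) '' s) := by
    refine ⟨κ, ?_⟩
    rintro _ ⟨j, hj, rfl⟩
    exact Order.succ_le_of_lt (h j hj)
  have h2 : i + 1 ≤ sSup ((· + 1) '' s) := le_csSup h1 ⟨i, hi, rfl⟩
  exact (Order.lt_succ i).trans_le h2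

theorem bdd1 (s : Set Ordinal.{0}) (hs : s.Countable) (h : ∀ i ∈ s, i < ω₁) :
    ∃ β < ω₁, ∀ i ∈ s, i < β := by
  refine bdd_of_cof s ?_ h
  rw [← lift_cof, cof_omega_one, Cardinal.lift_aleph, Ordinal.lift_one]
  exact (Cardinal.le_aleph0_iff_set_countable.2 hs).trans_lt Cardinal.aleph0_lt_aleph_one

theorem bdd2 (s : Set Ordinal.{0}) (hs : #s ≤ ℵ₁) (h : ∀ i ∈ s, i < ω_ 2) :
    ∃ β < ω_ 2, ∀ i ∈ s, i < β := by
  refine bdd_of_cof s ?_ h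
  have h3 : (ω_ 2 : Ordinal.{0}).cof = ℵ_ 2 := by
    have h4 := cof_omega_add_one (1 : Ordinal.{0})
    rwa [one_add_one_eq_two] at h4
  rw [← lift_cof, h3, Cardinal.lift_aleph]
  refine hs.trans_lt ?_
  rw [Cardinal.aleph_lt_aleph]
  have h5 : Ordinal.lift.{1, 0} 2 = 2 := by
    have := Ordinal.lift_natCast.{1, 0} 2
    exact_mod_cast this
  rw [h5]
  exact one_lt_two

theorem mk_Iio_le_aleph1 {α : Ordinal.{0}} (h : α < ω_ 2) : #(Set.Iio α) ≤ ℵ₁ := by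
  rw [Cardinal.mk_Iio_ordinal]
  have h2 : α.card < ℵ_ 2 := by
    rw [Cardinal.lt_ord.symm, Cardinal.ord_aleph]
    exact h
  have h3 : (ℵ_ 2 : Cardinal.{0}) = Order.succ ℵ₁ := by
    rw [Cardinal.succ_aleph, one_add_one_eq_two]
  rw [h3, Order.lt_succ_iff] at h2
  have h4 := Cardinal.lift_le.{1}.2 h2
  rwa [Cardinal.lift_aleph, Ordinal.lift_one] at h4

theorem countable_Iio {α : Ordinal.{0}} (h : α < ω₁) : (Set.Iio α).Countable :=
  (countable_Iic h).mono Set.Iio_subset_Iic_self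

theorem succ_lt_omega {o : Ordinal.{0}} {α : Ordinal.{0}} (h : α < ω_ o) :
    Order.succ α < ω_ o := (Cardinal.isSuccLimit_omega o).succ_lt h

theorem regO1 : RegO ω₁ where
  pos := Ordinal.omega_pos 1
  succ α h := succ_lt_omega h
  bdd α hα f hf := by
    obtain ⟨β, h1, h2⟩ := bdd1 (f '' Set.Iio α) ((countable_Iio hα).image f)
      (by rintro _ ⟨ξ, hξ, rfl⟩; exact hf ξ hξ)
    exact ⟨β, h1, fun ξ hξ => h2 _ ⟨ξ, hξ, rfl⟩⟩
  cnt f hf := by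
    obtain ⟨β, h1, h2⟩ := bdd1 (Set.range f) (Set.countable_range f)
      (by rintro _ ⟨n, rfl⟩; exact hf n)
    exact ⟨β, h1, fun n => h2 _ ⟨n, rfl⟩⟩

theorem regO2 : RegO (ω_ 2) where
  pos := Ordinal.omega_pos 2
  succ α h := succ_lt_omega h
  bdd α hα f hf := by
    obtain ⟨β, h1, h2⟩ := bdd2 (f '' Set.Iio α) (Cardinal.mk_image_le.trans (mk_Iio_le_aleph1 hα))
      (by rintro _ ⟨ξ, hξ, rfl⟩; exact hf ξ hξ)
    exact ⟨β, h1, fun ξ hξ => h2 _ ⟨ξ, hξ, rfl⟩⟩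
  cnt f hf := by
    have h3 : #(Set.range f) ≤ ℵ₁ := (Cardinal.le_aleph0_iff_set_countable.2
      (Set.countable_range f)).trans (Cardinal.aleph0_le_aleph 1)
    obtain ⟨β, h1, h2⟩ := bdd2 (Set.range f) h3 (by rintro _ ⟨n, rfl⟩; exact hf n)
    exact ⟨β, h1, fun n => h2 _ ⟨n, rfl⟩⟩

/-- closure points of a function -/
def clPts (g : Ordinal.{0} → Ordinal.{0}) (κ : Ordinal.{0}) : Set Ordinal.{0} :=
  {δ | δ < κ ∧ 0 < δ ∧ ∀ ξ < δ, g ξ < δ}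

theorem club_clPts {κ : Ordinal.{0}} (h : RegO κ) (g : Ordinal.{0} → Ordinal.{0})
    (hg : ∀ ξ < κ, g ξ < κ) : IsClubIn (clPts g κ) κ := by
  refine ⟨fun δ hδ => hδ.1, fun α hα => ?_, fun δ hδ h0 hc => ⟨hδ, h0, fun ξ hξ => ?_⟩⟩
  · have hB : ∀ a : Set.Iio κ, ∃ b : Set.Iio κ, a.1 < b.1 ∧ ∀ ξ < a.1, g ξ < b.1 := by
      intro a
      obtain ⟨β, h1, h2⟩ := h.bdd a.1 a.2 g fun ξ hξ => hg ξ (hξ.trans a.2)
      rcases le_total β (Order.succ a.1) with h3 | h3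
      · exact ⟨⟨Order.succ a.1, h.succ a.1 a.2⟩, Order.lt_succ _, fun ξ hξ =>
          (h2 ξ hξ).trans_le h3⟩
      · exact ⟨⟨β, h1⟩, (Order.lt_succ a.1).trans_le h3, h2⟩
    choose B hB1 hB2 using hB
    let a : ℕ → Set.Iio κ := fun n => Nat.rec ⟨Order.succ α, h.succ α hα⟩ (fun _ b => B b) n
    have ha0 : (a 0).1 = Order.succ α := rfl
    have has : ∀ n, a (n + 1) = B (a n) := fun n => rfl
    obtain ⟨β, hβ, hβ'⟩ := h.cnt (fun n => (a n).1) fun n => (a n).2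
    have hne : {γ : Ordinal.{0} | ∀ n, (a n).1 < γ}.Nonempty := ⟨β, hβ'⟩
    have h1 := csInf_mem hne
    have h2 : sInf {γ : Ordinal.{0} | ∀ n, (a n).1 < γ} ≤ β := csInf_le' hβ'
    refine ⟨sInf {γ : Ordinal.{0} | ∀ n, (a n).1 < γ}, ⟨h2.trans_lt hβ, ?_, fun ξ hξ => ?_⟩, ?_⟩
    · exact (zero_le).trans_lt (h1 0)
    · have h3 : ∃ n, ξ ≤ (a n).1 := by
        by_contra hcon
        push Not at hcon
        exact absurd (csInf_le' (s := {γ : Ordinal.{0} | ∀ n, (a n).1 < γ}) hcon)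
          (not_le_of_gt hξ)
      obtain ⟨n, hn⟩ := h3
      have h4 : ξ < (a (n + 1)).1 := by
        rw [has]
        exact hn.trans_lt (hB1 _)
      have h5 : g ξ < (a (n + 1 + 1)).1 := by
        rw [has (n + 1)]
        exact hB2 _ ξ h4
      exact h5.trans (h1 (n + 1 + 1))
    · have h3 := h1 0
      rw [ha0] at h3
      exact (Order.lt_succ α).trans h3
  · obtain ⟨β, hβ, h1, h2⟩ := hc ξ hξ
    exact (hβ.2.2 ξ h1).trans h2

/-- every club contains the closure points of a function -/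
theorem club_sup {κ : Ordinal.{0}} {C : Set Ordinal.{0}} (hC : IsClubIn C κ) :
    ∃ g : Ordinal.{0} → Ordinal.{0}, (∀ ξ < κ, g ξ < κ) ∧ clPts g κ ⊆ C := by
  classical
  have h1 : ∀ ξ : Ordinal.{0}, ∃ β, ξ < κ → β ∈ C ∧ ξ < β := by
    intro ξ
    by_cases h : ξ < κ
    · obtain ⟨β, hβ⟩ := hC.2.1 ξ h
      exact ⟨β, fun _ => hβ⟩
    · exact ⟨0, fun h' => absurd h' h⟩
  choose g hg using h1
  refine ⟨g, fun ξ hξ => hC.1 (hg ξ hξ).1, fun δ hδ => ?_⟩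
  exact hC.2.2 δ hδ.1 hδ.2.1 fun α hα => ⟨g α, (hg α (hα.trans hδ.1)).1,
    (hg α (hα.trans hδ.1)).2, hδ.2.2 α hα⟩

theorem clPts_max {κ : Ordinal.{0}} (f g : Ordinal.{0} → Ordinal.{0}) :
    clPts (fun ξ => max (f ξ) (g ξ)) κ = clPts f κ ∩ clPts g κ := by
  ext δ
  constructor
  · rintro ⟨h1, h2, h3⟩
    exact ⟨⟨h1, h2, fun ξ hξ => (le_max_left _ _).trans_lt (h3 ξ hξ)⟩,
      ⟨h1, h2, fun ξ hξ => (le_max_right _ _).trans_lt (h3 ξ hξ)⟩⟩
  · rintro ⟨⟨h1, h2, h3⟩, _, _, h6⟩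
    exact ⟨h1, h2, fun ξ hξ => max_lt (h3 ξ hξ) (h6 ξ hξ)⟩

/-- the intersection of two clubs -/
theorem club_inter {κ : Ordinal.{0}} (h : RegO κ) {C D : Set Ordinal.{0}} (hC : IsClubIn C κ)
    (hD : IsClubIn D κ) : IsClubIn (C ∩ D) κ := by
  obtain ⟨f, hf, hf'⟩ := club_sup hC
  obtain ⟨g, hg, hg'⟩ := club_sup hD
  have h1 := club_clPts h (fun ξ => max (f ξ) (g ξ)) fun ξ hξ => max_lt (hf ξ hξ) (hg ξ hξ)
  rw [clPts_max] at h1
  refine ⟨fun δ hδ => hC.1 hδ.1, fun α hα => ?_, fun δ hδ h0 hc => ⟨?_, ?_⟩⟩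
  · obtain ⟨β, hβ, h2⟩ := h1.2.1 α hα
    exact ⟨β, ⟨hf' hβ.1, hg' hβ.2⟩, h2⟩
  · exact hC.2.2 δ hδ h0 fun α hα => by
      obtain ⟨β, hβ, h2⟩ := hc α hα
      exact ⟨β, hβ.1, h2⟩
  · exact hD.2.2 δ hδ h0 fun α hα => by
      obtain ⟨β, hβ, h2⟩ := hc α hα
      exact ⟨β, hβ.2, h2⟩

section Ideal
variable {I : Set (Set Ordinal.{0})}

theorem IsNormalIdeal.empty (hI : IsNormalIdeal I) : ∅ ∈ I :=
  hI.down _ (hI.single 0 (Ordinal.omega_pos 1)) _ (Set.empty_subset _)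

/-- countable sets are in a normal ideal -/
theorem IsNormalIdeal.countable (hI : IsNormalIdeal I) {A : Set Ordinal.{0}} (hA : A.Countable)
    (hA' : A ⊆ Set.Iio ω₁) : A ∈ I := by
  classical
  have hω : (Set.Iio (ω : Ordinal.{0})) ∈ I := by
    have h1 := hI.diag (fun α => if Order.succ α < ω₁ then {Order.succ α} else ∅) (by
      intro α hα
      rw [if_pos (succ_lt_omega hα)]
      exact hI.single _ (succ_lt_omega hα))
    refine hI.down _ (hI.union _ (hI.single 0 (Ordinal.omega_pos 1)) _ h1) _ ?_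
    intro β hβ
    have hβ1 : β < ω₁ := lt_trans hβ omega0_lt_omega_one
    obtain ⟨n, rfl⟩ := Ordinal.lt_omega0.1 hβ
    cases n with
    | zero =>
      left
      simp
    | succ n =>
      right
      refine ⟨hβ1, (n : Ordinal.{0}), ?_, ?_⟩
      · exact_mod_cast Nat.lt_succ_self n
      · have h2 : Order.succ (n : Ordinal.{0}) = ((n + 1 : ℕ) : Ordinal.{0}) := by
          rw [Nat.cast_succ]
          rfl
        rw [h2, if_pos hβ1]
        rfl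
  rcases A.eq_empty_or_nonempty with rfl | hne
  · exact hI.empty
  obtain ⟨a, ha⟩ := hA.exists_eq_range hne
  have ha' : ∀ n, a n < ω₁ := fun n => hA' (ha ▸ ⟨n, rfl⟩)
  have h1 := hI.diag (fun α => {β | ∃ n : ℕ, α = n ∧ β = a n}) (by
    intro α hα
    by_cases h : ∃ n : ℕ, α = n
    · obtain ⟨n, rfl⟩ := h
      refine hI.down _ (hI.single (a n) (ha' n)) _ ?_
      rintro β ⟨m, hm, rfl⟩
      rw [Nat.cast_inj] at hm
      rw [hm]
      rfl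
    · refine hI.down _ hI.empty _ ?_
      rintro β ⟨m, hm, _⟩
      exact absurd ⟨m, hm⟩ h)
  refine hI.down _ (hI.union _ hω _ h1) _ ?_
  rw [ha]
  rintro _ ⟨n, rfl⟩
  rcases lt_or_ge (a n) ω with h | h
  · exact Or.inl h
  · exact Or.inr ⟨ha' n, n, (Ordinal.natCast_lt_omega0 n).trans_le h, n, rfl, rfl⟩

/-- the complement of a club is in a normal ideal -/
theorem IsNormalIdeal.compl_clPts (hI : IsNormalIdeal I) (g : Ordinal.{0} → Ordinal.{0})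
    (hg : ∀ ξ < ω₁, g ξ < ω₁) : Set.Iio ω₁ \ clPts g ω₁ ∈ I := by
  have h1 := hI.diag (fun α => Set.Iic (g α) ∩ Set.Iio ω₁) fun α hα =>
    hI.countable ((countable_Iic (hg α hα)).mono Set.inter_subset_left) Set.inter_subset_right
  refine hI.down _ (hI.union _ (hI.single 0 (Ordinal.omega_pos 1)) _ h1) _ ?_
  rintro δ ⟨h2, h3⟩
  have h2' : δ < ω₁ := h2
  rcases eq_or_ne δ 0 with rfl | h0
  · exact Or.inl rfl
  · right
    by_contra h4
    apply h3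
    refine ⟨h2', pos_iff_ne_zero.2 h0, fun ξ hξ => ?_⟩
    by_contra h5
    push Not at h5
    exact h4 ⟨h2', ξ, hξ, h5, h2'⟩

end Ideal

end Pool.Agent.R595.NST
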