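import Pool.Agent.R595.NST.PosDefs

/-!
# Restrictions of nodes
-/

set_option autoImplicit false

namespace Pool.Agent.R595.NST

open Cardinal Ordinal

variable {e : Ordinal.{0} → Ordinal.{0} → Ordinal.{0}} {E : Set Ordinal.{0}}
  {X : Ordinal.{0} → Set Ordinal.{0}}

theorem cls_congr (x y : Ordinal.{0} → Ordinal.{0}) (δ : Ordinal.{0}) (h : ∀ ξ < δ, x ξ = y ξ) :
    cls e x δ = cls e y δ := by
  have h1 : x '' Set.Iio δ = y '' Set.Iio δ := by
    ext a
    constructor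
    · rintro ⟨ξ, hξ, rfl⟩
      exact ⟨ξ, hξ, (h ξ hξ).symm⟩
    · rintro ⟨ξ, hξ, rfl⟩
      exact ⟨ξ, hξ, h ξ hξ⟩
  unfold cls
  rw [h1]

theorem closedPt_congr (x y : Ordinal.{0} → Ordinal.{0}) (δ : Ordinal.{0})
    (h : ∀ ξ < δ, x ξ = y ξ) : ClosedPt e x δ ↔ ClosedPt e y δ := by
  unfold ClosedPt
  rw [cls_congr x y δ h]

/-- the restriction of a node -/
noncomputable def Nd.cut (p : Nd e E X) (ξ : Ordinal.{0}) (hξ : ξ ≤ p.len) : Nd e E X where
  len := ξ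
  val := fun η => if η < ξ then p.val η else 0
  len_lt := hξ.trans_lt p.len_lt
  val_lt η := by
    split
    · exact p.val_lt η
    · exact Ordinal.omega_pos 2
  val_zero η h := if_neg (not_lt_of_ge h)
  ok δ hδ hcl := by
    have h1 : ∀ η < δ, (if η < ξ then p.val η else 0) = p.val η := fun η hη =>
      if_pos (hη.trans_le hδ)
    rw [closedPt_congr _ _ δ h1] at hcl
    obtain ⟨h2, h3, h4⟩ := p.ok δ (hδ.trans hξ) hcl
    rw [cls_congr _ _ δ h1]
    refine ⟨h2, h3, fun h5 i hi => ?_⟩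
    rw [if_pos h5]
    exact h4 (h5.trans_le hξ) i hi

theorem Nd.cut_le (p : Nd e E X) (ξ : Ordinal.{0}) (hξ : ξ ≤ p.len) : p.cut ξ hξ ≤ p :=
  ⟨hξ, fun _ hη => if_pos hη⟩

theorem Nd.eq_of_len {p q r : Nd e E X} (hp : p ≤ r) (hq : q ≤ r) (h : p.len = q.len) :
    p = q := by
  refine Nd.ext' h (funext fun ξ => ?_)
  rcases lt_or_ge ξ p.len with h1 | h1
  · rw [hp.2 ξ h1, hq.2 ξ (h ▸ h1)]
  · rw [p.val_zero ξ h1, q.val_zero ξ (h ▸ h1)]

theorem Nd.len_strict {p q : Nd e E X} (h : p < q) : p.len < q.len := by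
  refine lt_of_le_of_ne h.le.1 fun h1 => h.ne (Nd.eq_of_len h.le le_rfl h1)

theorem Nd.le_of_len {p q r : Nd e E X} (hp : p ≤ r) (hq : q ≤ r) (h : p.len ≤ q.len) : p ≤ q :=
  ⟨h, fun ξ hξ => (hp.2 ξ hξ).trans (hq.2 ξ (hξ.trans_le h)).symm⟩

theorem Nd.cut_lt (p : Nd e E X) (ξ : Ordinal.{0}) (hξ : ξ < p.len) : p.cut ξ hξ.le < p :=
  lt_of_le_of_ne (p.cut_le ξ hξ.le) fun h => by
    have h1 := congrArg Nd.len h
    exact hξ.ne h1

/-- the predecessors of `p` are its restrictions -/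
noncomputable def Nd.predIso (p : Nd e E X) : Set.Iio p ≃o Set.Iio p.len where
  toFun q := ⟨q.1.len, Nd.len_strict q.2⟩
  invFun ξ := ⟨p.cut ξ.1 (le_of_lt ξ.2), p.cut_lt ξ.1 ξ.2⟩
  left_inv q := by
    have hq : q.1 < p := q.2
    exact Subtype.ext (Nd.eq_of_len (p.cut_le q.1.len hq.le.1) hq.le rfl)
  right_inv ξ := rfl
  map_rel_iff' {q r} := by
    change q.1.len ≤ r.1.len ↔ q.1 ≤ r.1
    have hq : q.1 < p := q.2
    have hr : r.1 < p := r.2
    exact ⟨fun h => Nd.le_of_len hq.le hr.le h, fun h => h.1⟩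

theorem Nd.chain (t : Nd e E X) : ∀ a ≤ t, ∀ b ≤ t, a ≤ b ∨ b ≤ a := by
  intro a ha b hb
  rcases le_total a.len b.len with h | h
  · exact Or.inl (Nd.le_of_len ha hb h)
  · exact Or.inr (Nd.le_of_len hb ha h)

theorem countable_Iic {α : Ordinal.{0}} (h : α < ω₁) : (Set.Iic α).Countable := by
  have h2 : Set.Iic α = Set.Iio (Order.succ α) := by
    ext x
    simp
  rw [h2, ← Cardinal.le_aleph0_iff_set_countable, Cardinal.mk_Iio_ordinal]
  have h3 : (Order.succ α).card < ℵ₁ := by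
    rw [Cardinal.lt_ord.symm, Cardinal.ord_aleph]
    exact (Cardinal.isSuccLimit_omega 1).succ_lt h
  have h4 : (Order.succ α).card ≤ ℵ₀ := by
    rw [← Order.lt_succ_iff, Cardinal.succ_aleph0]
    exact h3
  exact Cardinal.lift_le_aleph0.2 h4

theorem Nd.countable_Iic (t : Nd e E X) : (Set.Iic t).Countable := by
  refine Set.MapsTo.countable_of_injOn (f := Nd.len) (t := Set.Iic t.len) ?_ ?_
    (NST.countable_Iic t.len_lt)
  · intro p hp
    exact hp.1
  · intro p hp q hq h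
    exact Nd.eq_of_len hp hq h

end Pool.Agent.R595.NST
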