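import Mathlib

/-!
# Normal ideals on `ω₁` as tree nonstationary ideals: definitions
-/

set_option autoImplicit false

universe u

namespace Pool.Agent.R595.NST

open Cardinal Ordinal

/-- A tree: the set of the predecessors of each node is well ordered, and there is a root `⊥`. -/
class Tree (T : Type) extends PartialOrder T, OrderBot T where
  wo : ∀ t : T, IsWellOrder (Set.Iio t) (· < ·)

/-- the height of a node: the order type of the set of its predecessors -/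
noncomputable def ht {T : Type} [Tree T] (t : T) : Ordinal.{0} :=
  haveI := Tree.wo t
  Ordinal.type (fun a b : Set.Iio t => a < b)

/-- the tree has height `ω₁` -/
def HeightOmega1 (T : Type) [Tree T] : Prop :=
  (∀ t : T, ht t < ω₁) ∧ ∀ α : Ordinal.{0}, α < ω₁ → ∃ t : T, ht t = α

/-- `U` is special: a union of countably many antichains -/
def Special {T : Type u} [PartialOrder T] (U : Set T) : Prop :=
  ∃ A : ℕ → Set T, (∀ n, IsAntichain (· ≤ ·) (A n)) ∧ U = ⋃ n, A n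

/-- `B ∈ NS^T`: some regressive function on `B` has special fibres -/
def NSup {T : Type u} [PartialOrder T] [OrderBot T] (B : Set T) : Prop :=
  ∃ f : T → T, (∀ t ∈ B, t ≠ ⊥ → f t < t) ∧ ∀ s : T, Special {t | t ∈ B ∧ f t = s}

/-- the ideal `NS_T` on `ω₁` -/
def NSub (T : Type) [Tree T] : Set (Set Ordinal.{0}) :=
  {X | X ⊆ Set.Iio ω₁ ∧ NSup {t : T | ht t ∈ X}}

/-- normal ideals on `ω₁` -/
structure IsNormalIdeal (I : Set (Set Ordinal.{0})) : Prop where
  sub : ∀ X ∈ I, X ⊆ Set.Iio ω₁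
  down : ∀ X ∈ I, ∀ Y ⊆ X, Y ∈ I
  union : ∀ X ∈ I, ∀ Y ∈ I, X ∪ Y ∈ I
  proper : Set.Iio ω₁ ∉ I
  single : ∀ α : Ordinal.{0}, α < ω₁ → {α} ∈ I
  diag : ∀ X : Ordinal.{0} → Set Ordinal.{0}, (∀ α < ω₁, X α ∈ I) →
    {β | β < ω₁ ∧ ∃ α < β, β ∈ X α} ∈ I

/-- closed unbounded subsets of an ordinal `κ` -/
def IsClubIn (C : Set Ordinal.{0}) (κ : Ordinal.{0}) : Prop :=
  C ⊆ Set.Iio κ ∧ (∀ α < κ, ∃ β ∈ C, α < β) ∧
    ∀ δ < κ, 0 < δ → (∀ α < δ, ∃ β ∈ C, α < β ∧ β < δ) → δ ∈ C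

/-- stationary subsets of an ordinal `κ` -/
def StatIn (S : Set Ordinal.{0}) (κ : Ordinal.{0}) : Prop :=
  ∀ C, IsClubIn C κ → (S ∩ C).Nonempty

/-- `E` is a non-reflecting stationary set of ordinals of countable cofinality below `ω₂` -/
def NonReflecting (E : Set Ordinal.{0}) : Prop :=
  E ⊆ Set.Iio (ω_ 2) ∧ (∀ α ∈ E, α.cof = ℵ₀) ∧ StatIn E (ω_ 2) ∧
    ∀ β < ω_ 2, β.cof = ℵ₁ → ¬ StatIn E β

/-- Rado's conjecture (Todorcevic's form): a tree of height at most `ω₁` all of whose subsets of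
size at most `ℵ₁` are special is special. -/
def RadoConjecture : Prop :=
  ∀ (T : Type) [Tree T], (∀ t : T, ht t < ω₁) → (∀ S : Set T, #S ≤ ℵ₁ → Special S) →
    Special (Set.univ : Set T)

/-- Jensen's diamond principle -/
def Diamond : Prop :=
  ∃ A : Ordinal.{0} → Set Ordinal.{0}, ∀ X ⊆ Set.Iio ω₁,
    StatIn {δ | δ < ω₁ ∧ X ∩ Set.Iio δ = A δ} ω₁

/-- positive half -/
def TaskP : Prop :=
  (2 : Cardinal.{0}) ^ ℵ₁ = ℵ_ 2 → (∃ E, NonReflecting E) →
    ∀ I, IsNormalIdeal I → ∃ (T : Type) (_ : Tree T), HeightOmega1 T ∧ NSub T = I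

/-- negative half -/
def TaskN : Prop :=
  RadoConjecture → Diamond →
    ∃ I, IsNormalIdeal I ∧ ∀ (T : Type) [Tree T], HeightOmega1 T → NSub T ≠ I

end Pool.Agent.R595.NST
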