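import Pool.Agent.R595.NST.NegDefs

/-!
# The bounded part of `Hat T` is special
-/

set_option autoImplicit false

namespace Pool.Agent.R595.NST

open Cardinal Ordinal

variable {T : Type} [Tree T]

/-- the restriction of a node of `Hat T` -/
noncomputable def Hat.cut (p : Hat T) (r : T) (hr : r ≤ p.nd) : Hat T := by
  classical
  exact {
    nd := r
    val := fun s => if s < r then p.val s else Sum.inr fun _ => ∅
    val_default := fun s hs => if_neg hs
    ok := by
      intro t ht hlim i hi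
      have h1 : ∀ s < t, (if s < r then p.val s else Sum.inr fun _ => ∅) = p.val s := fun s hs =>
        if_pos (hs.trans_le ht)
      obtain ⟨s, hs, g, h2, h3⟩ := p.ok t (ht.trans hr) hlim i fun s hs j hj =>
        hi s hs j ((h1 s hs).trans hj)
      exact ⟨s, hs, g, (h1 s hs).trans h2, h3⟩ }

theorem Hat.cut_nd (p : Hat T) (r : T) (hr : r ≤ p.nd) : (p.cut r hr).nd = r := rfl

theorem Hat.cut_val (p : Hat T) (r : T) (hr : r ≤ p.nd) (s : T) (hs : s < r) :
    (p.cut r hr).val s = p.val s := if_pos hs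

theorem Hat.cut_le (p : Hat T) (r : T) (hr : r ≤ p.nd) : p.cut r hr ≤ p :=
  ⟨hr, fun s hs => p.cut_val r hr s hs⟩

theorem Hat.cut_lt (p : Hat T) (r : T) (hr : r < p.nd) : p.cut r hr.le < p :=
  lt_of_le_of_ne (p.cut_le r hr.le) fun h => hr.ne (congrArg Hat.nd h)

theorem special_nd {A : Set T} (hA : Special A) : Special {p : Hat T | p.nd ∈ A} := by
  rw [special_iff] at hA ⊢
  obtain ⟨c, hc⟩ := hA
  exact ⟨fun p => c p.nd, fun p hp q hq hpq => hc _ hp _ hq (Hat.nd_lt hpq)⟩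

theorem taskN1 : TaskN1 := by
  classical
  intro T _ hT i
  have hchain : ∀ p : Hat T, ∀ a ≤ p, ∀ b ≤ p, a ≤ b ∨ b ≤ a := tree_chain
  refine special_of_nsup hchain ?_ ?_
  · intro p hp q hq s hs j hj
    exact hp s (hs.trans_le hq.1) j ((hq.2 s hs).symm.trans hj)
  -- the regressive function
  have key : ∀ p : Hat T, ∃ q : Hat T, (p ∈ {p : Hat T | ∀ s < p.nd, ∀ j, p.val s = Sum.inl j → j < i} →
      p ≠ ⊥ → q < p ∧ ((q.nd ⋖ p.nd) ∨
        ∃ s < q.nd, ∃ g, q.val s = Sum.inr g ∧ Special (g i) ∧ p.nd ∈ g i)) := by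
    intro p
    by_cases hp : (∀ s < p.nd, ∀ j, p.val s = Sum.inl j → j < i) ∧ p ≠ ⊥
    · have hnd : p.nd ≠ ⊥ := by
        intro h
        apply hp.2
        refine le_antisymm (show p.nd ≤ (⊥ : Hat T).nd ∧ ∀ s < p.nd,
          p.val s = (⊥ : Hat T).val s from ⟨h.le, fun s hs => ?_⟩) bot_le
        rw [h] at hs
        exact absurd hs not_lt_bot
      by_cases hlim : LimNd p.nd
      · obtain ⟨s, hs, g, h1, h2, h3⟩ := p.ok p.nd le_rfl hlim i hp.1
        obtain ⟨r, hsr, hr⟩ := hlim.2 s hs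
        refine ⟨p.cut r hr.le, fun _ _ => ⟨p.cut_lt r hr, Or.inr ⟨s, hsr, g, ?_, h2, h3⟩⟩⟩
        rw [p.cut_val r hr.le s hsr]
        exact h1
      · have h4 : ∃ s < p.nd, ∀ r, s < r → ¬ r < p.nd := by
          by_contra hcon
          push Not at hcon
          exact hlim ⟨hnd, fun s hs => hcon s hs⟩
        obtain ⟨s, hs, h5⟩ := h4
        exact ⟨p.cut s hs.le, fun _ _ => ⟨p.cut_lt s hs, Or.inl ⟨hs, fun r h6 h7 => h5 r h6 h7⟩⟩⟩
    · exact ⟨p, fun h1 h2 => absurd ⟨h1, h2⟩ hp⟩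
  choose f hf using key
  refine ⟨f, fun p hp hne => (hf p hp hne).1, fun q => ?_⟩
  have h1 : Special {p : Hat T | q < p ∧ q.nd ⋖ p.nd} := by
    refine special_of_isAntichain ?_
    rintro a ⟨ha, ha'⟩ b ⟨hb, hb'⟩ hne hle
    have h2 : a < b := lt_of_le_of_ne hle hne
    exact hb'.2 ha'.1 (Hat.nd_lt h2)
  have h2 : Special (⋃ s ∈ Set.Iic q.nd, {p : Hat T | ∃ g, q.val s = Sum.inr g ∧
      Special (g i) ∧ p.nd ∈ g i}) := by
    refine Special.biUnion (tree_countable hT q.nd) fun s _ => ?_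
    by_cases h3 : ∃ g, q.val s = Sum.inr g ∧ Special (g i)
    · obtain ⟨g, hg, hg'⟩ := h3
      refine (special_nd hg').mono ?_
      rintro p ⟨g', h4, _, h5⟩
      rw [hg] at h4
      cases Sum.inr.inj h4
      exact h5
    · refine (special_singleton (⊥ : Hat T)).mono ?_
      rintro p ⟨g', h4, h5, _⟩
      exact absurd ⟨g', h4, h5⟩ h3
  refine ((special_singleton (⊥ : Hat T)).union (h1.union h2)).mono ?_
  rintro p ⟨hp, hpq⟩
  by_cases hne : p = ⊥
  · exact Or.inl hne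
  · right
    obtain ⟨h3, h4⟩ := hf p hp hne
    rw [hpq] at h3 h4
    rcases h4 with h4 | ⟨s, hs, g, h5⟩
    · exact Or.inl ⟨h3, h4⟩
    · right
      simp only [Set.mem_iUnion]
      exact ⟨s, hs.le, g, h5⟩

end Pool.Agent.R595.NST
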