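import Pool.Agent.R595.NST.N1

/-!
# Closure systems on the objects attached to a tree
-/

set_option autoImplicit false

namespace Pool.Agent.R595.NST

open Cardinal Ordinal

/-- objects -/
inductive Obj (T : Type) [Tree T] : Type
  | ord (i : W2)
  | st (A : Set T)
  | afn (g : W2 → Set T)
  | nd (t : T)
  | hat (p : Hat T)
  | nat (n : ℕ)
  | pair (a b : Obj T)

/-- terms -/
inductive Tm : Type
  | base (n : ℕ)
  | comp (u v : Tm)
  | pr (u v : Tm)
  | curry (u : Tm)

/-- code of a term -/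
def Tm.enc : Tm → ℕ
  | .base n => Nat.pair 0 n
  | .comp u v => Nat.pair 1 (Nat.pair u.enc v.enc)
  | .pr u v => Nat.pair 2 (Nat.pair u.enc v.enc)
  | .curry u => Nat.pair 3 u.enc

theorem Tm.enc_inj : Function.Injective Tm.enc := by
  intro u
  induction u with
  | base n =>
    intro v h
    cases v <;> simp_all [Tm.enc, Nat.pair_eq_pair]
  | comp u v ihu ihv =>
    intro w h
    cases w with
    | comp u' v' =>
      simp only [Tm.enc, Nat.pair_eq_pair, true_and] at h
      rw [ihu h.1, ihv h.2]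
    | _ => simp [Tm.enc, Nat.pair_eq_pair] at h
  | pr u v ihu ihv =>
    intro w h
    cases w with
    | pr u' v' =>
      simp only [Tm.enc, Nat.pair_eq_pair, true_and] at h
      rw [ihu h.1, ihv h.2]
    | _ => simp [Tm.enc, Nat.pair_eq_pair] at h
  | curry u ih =>
    intro w h
    cases w with
    | curry u' =>
      simp only [Tm.enc, Nat.pair_eq_pair, true_and] at h
      rw [ih h]
    | _ => simp [Tm.enc, Nat.pair_eq_pair] at h

instance : Countable Tm := Tm.enc_inj.countable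

section
variable {T : Type} [Tree T]

/-- the set coded by an object -/
def toSet : Obj T → Set T
  | .st A => A
  | _ => ∅

/-- value of a term -/
def eval (b : ℕ → Obj T → Obj T) : Tm → Obj T → Obj T
  | .base n, a => b n a
  | .comp u v, a => eval b u (eval b v a)
  | .pr u v, a => .pair (eval b u a) (eval b v a)
  | .curry u, a => .afn fun i => toSet (eval b u (.pair a (.ord i)))

/-- the least closed set containing `S` -/
inductive Hull (b : ℕ → Obj T → Obj T) (S : Set (Obj T)) : Obj T → Prop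
  | base (a : Obj T) (h : a ∈ S) : Hull b S a
  | app (u : Tm) (a : Obj T) (h : Hull b S a) : Hull b S (eval b u a)
  | pair (a c : Obj T) (ha : Hull b S a) (hc : Hull b S c) : Hull b S (.pair a c)

/-- the least closed set containing `S` -/
def Hl (b : ℕ → Obj T → Obj T) (S : Set (Obj T)) : Set (Obj T) := {a | Hull b S a}

variable {b : ℕ → Obj T → Obj T}

theorem Hl.sub (S : Set (Obj T)) : S ⊆ Hl b S := fun a h => Hull.base a h

theorem Hl.mono {S S' : Set (Obj T)} (h : S ⊆ Hl b S') : Hl b S ⊆ Hl b S' := by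
  intro a ha
  induction ha with
  | base a h1 => exact h h1
  | app u a _ ih => exact Hull.app u a ih
  | pair a c _ _ iha ihc => exact Hull.pair a c iha ihc

theorem Hl.fin {S : Set (Obj T)} {a : Obj T} (ha : a ∈ Hl b S) :
    ∃ F : Set (Obj T), F ⊆ S ∧ F.Finite ∧ a ∈ Hl b F := by
  induction ha with
  | base a h1 => exact ⟨{a}, Set.singleton_subset_iff.2 h1, Set.finite_singleton a,
      Hl.sub _ (Set.mem_singleton a)⟩
  | app u a _ ih =>
    obtain ⟨F, h1, h2, h3⟩ := ih
    exact ⟨F, h1, h2, Hull.app u a h3⟩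
  | pair a c _ _ iha ihc =>
    obtain ⟨F, h1, h2, h3⟩ := iha
    obtain ⟨G, h4, h5, h6⟩ := ihc
    exact ⟨F ∪ G, Set.union_subset h1 h4, h2.union h5, Hull.pair a c
      (Hl.mono (Set.subset_union_left.trans (Hl.sub _)) h3)
      (Hl.mono (Set.subset_union_right.trans (Hl.sub _)) h6)⟩

theorem Hl.countable {S : Set (Obj T)} (hS : S.Countable) : (Hl b S).Countable := by
  let L : ℕ → Set (Obj T) := fun n => Nat.rec S
    (fun _ A => A ∪ ((⋃ u : Tm, eval b u '' A) ∪ (fun q : Obj T × Obj T => .pair q.1 q.2) '' (A ×ˢ A))) n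
  have hL0 : L 0 = S := rfl
  have hL : ∀ n, L (n + 1) = L n ∪ ((⋃ u : Tm, eval b u '' L n) ∪
      (fun q : Obj T × Obj T => Obj.pair q.1 q.2) '' (L n ×ˢ L n)) := fun n => rfl
  have hc : ∀ n, (L n).Countable := by
    intro n
    induction n with
    | zero => exact hS
    | succ n ih =>
      rw [hL]
      exact ih.union ((Set.countable_iUnion fun u => ih.image _).union ((ih.prod ih).image _))
  have hm : Monotone L := monotone_nat_of_le_succ fun n => by
    rw [hL]
    exact Set.subset_union_left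
  have hsub : Hl b S ⊆ ⋃ n, L n := by
    intro a ha
    induction ha with
    | base a h => exact Set.mem_iUnion.2 ⟨0, h⟩
    | app u a _ ih =>
      obtain ⟨n, hn⟩ := Set.mem_iUnion.1 ih
      refine Set.mem_iUnion.2 ⟨n + 1, ?_⟩
      rw [hL]
      exact Or.inr (Or.inl (Set.mem_iUnion.2 ⟨u, a, hn, rfl⟩))
    | pair a c _ _ iha ihc =>
      obtain ⟨n, hn⟩ := Set.mem_iUnion.1 iha
      obtain ⟨m, hm'⟩ := Set.mem_iUnion.1 ihc
      refine Set.mem_iUnion.2 ⟨max n m + 1, ?_⟩
      rw [hL]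
      exact Or.inr (Or.inr ⟨(a, c), ⟨hm (le_max_left _ _) hn, hm (le_max_right _ _) hm'⟩, rfl⟩)
  exact (Set.countable_iUnion hc).mono hsub

/-- adjoining an ordinal -/
theorem Hl.adjoin (h0 : ∀ a c, b 0 (.pair a c) = a) (h1 : ∀ a c, b 1 (.pair a c) = c)
    {S : Set (Obj T)} (hne : S.Nonempty) (i : W2) {a : Obj T}
    (ha : a ∈ Hl b (Hl b S ∪ {Obj.ord i})) :
    ∃ u : Tm, ∃ n ∈ Hl b S, a = eval b u (.pair n (.ord i)) := by
  induction ha with
  | base a h =>
    rcases h with h | h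
    · exact ⟨.base 0, a, h, (h0 _ _).symm⟩
    · obtain ⟨n, hn⟩ := hne
      refine ⟨.base 1, n, Hl.sub _ hn, ?_⟩
      rw [Set.mem_singleton_iff.1 h]
      exact (h1 _ _).symm
  | app u a _ ih =>
    obtain ⟨v, n, hn, rfl⟩ := ih
    exact ⟨.comp u v, n, hn, rfl⟩
  | pair a c _ _ iha ihc =>
    obtain ⟨u, n, hn, rfl⟩ := iha
    obtain ⟨v, m, hm, rfl⟩ := ihc
    refine ⟨.pr (.comp u (.pr (.comp (.base 0) (.base 0)) (.base 1)))
      (.comp v (.pr (.comp (.base 1) (.base 0)) (.base 1))), .pair n m, Hull.pair n m hn hm, ?_⟩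
    simp only [eval, h0, h1]

/-- `t` avoids the special sets of `N` -/
def Good (t : T) (N : Set (Obj T)) : Prop := ∀ A : Set T, Obj.st A ∈ N → Special A → t ∉ A

/-- the objects attached to the predecessors of `t` -/
def Sd (t : T) : Set (Obj T) := (Obj.nd '' Set.Iio t) ∪ {Obj.nat 0}

theorem Sd.fin {t : T} (ht : t ≠ ⊥) {F : Set (Obj T)} (hfin : F.Finite) :
    F ⊆ Sd t → ∃ s < t, F ⊆ Obj.nd '' Set.Iic s ∪ {Obj.nat 0} := by
  induction F, hfin using Set.Finite.induction_on with
  | empty => exact fun _ => ⟨⊥, bot_lt_iff_ne_bot.2 ht, Set.empty_subset _⟩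
  | @insert a G _ _ ih =>
    intro hF
    obtain ⟨s, hs, hG⟩ := ih ((Set.subset_insert a G).trans hF)
    rcases hF (Set.mem_insert a G) with ⟨r, hr, rfl⟩ | ha
    · have hr' : r < t := hr
      rcases tree_chain t s hs.le r hr'.le with h | h
      · refine ⟨r, hr', Set.insert_subset (Or.inl ⟨r, le_rfl, rfl⟩) ?_⟩
        rintro c hc
        rcases hG hc with ⟨q, hq, rfl⟩ | hc
        · exact Or.inl ⟨q, le_trans hq h, rfl⟩
        · exact Or.inr hc
      · exact ⟨s, hs, Set.insert_subset (Or.inl ⟨r, h, rfl⟩) hG⟩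
    · exact ⟨s, hs, Set.insert_subset (Or.inr ha) hG⟩

theorem exists_good (hT : ∀ t : T, ht t < ω₁) (hns : ¬ NSup (Set.univ : Set T)) :
    ∃ t : T, Good t (Hl b (Sd t)) := by
  classical
  by_contra hcon
  push Not at hcon
  apply hns
  have key : ∀ t : T, ∃ s : T, t ≠ ⊥ → s < t ∧ ∃ A : Set T, Special A ∧ t ∈ A ∧
      Obj.st A ∈ Hl b (Obj.nd '' Set.Iic s ∪ {Obj.nat 0}) := by
    intro t
    by_cases ht : t = ⊥
    · exact ⟨⊥, fun h => absurd ht h⟩
    have h1 := hcon t
    unfold Good at h1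
    push Not at h1
    obtain ⟨A, hA, hsp, htA⟩ := h1
    obtain ⟨F, hF, hfin, hA'⟩ := Hl.fin hA
    -- an upper bound below `t` of the nodes occurring in `F`
    have h2 : ∃ s < t, F ⊆ Obj.nd '' Set.Iic s ∪ {Obj.nat 0} := Sd.fin ht hfin hF
    obtain ⟨s, hs, hFs⟩ := h2
    exact ⟨s, fun _ => ⟨hs, A, hsp, htA, Hl.mono (hFs.trans (Hl.sub _)) hA'⟩⟩
  choose f hf using key
  refine ⟨f, fun t _ hne => (hf t hne).1, fun s => ?_⟩
  have h1 : (Hl b (Obj.nd '' Set.Iic s ∪ {Obj.nat 0})).Countable :=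
    Hl.countable (((tree_countable hT s).image _).union (Set.countable_singleton _))
  have h2 : Special (⋃ a ∈ Hl b (Obj.nd '' Set.Iic s ∪ {Obj.nat 0}),
      {t | t ∈ toSet a ∧ Special (toSet a)}) := by
    refine Special.biUnion h1 fun a _ => ?_
    by_cases h3 : Special (toSet a)
    · exact h3.mono fun t ht => ht.1
    · refine (special_singleton (⊥ : T)).mono ?_
      rintro t ⟨_, ht⟩
      exact absurd ht h3
  refine ((special_singleton (⊥ : T)).union h2).mono ?_
  rintro t ⟨_, hts⟩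
  by_cases hne : t = ⊥
  · exact Or.inl hne
  · right
    obtain ⟨h4, A, hA, htA, hA'⟩ := hf t hne
    rw [hts] at hA'
    simp only [Set.mem_iUnion]
    exact ⟨Obj.st A, hA', htA, hA⟩

end

end Pool.Agent.R595.NST
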