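import Pool.Agent.R595.NST.N2a

/-!
# `Hat T` is not special
-/

set_option autoImplicit false

namespace Pool.Agent.R595.NST

open Cardinal Ordinal

section
variable {T : Type} [Tree T]

/-- the one-step extension of a node of `Hat T` -/
noncomputable def Hat.ext (hT : ∀ t : T, ht t < ω₁) (p : Hat T) (s : T) (hs : p.nd < s)
    (v : W2 ⊕ (W2 → Set T)) : Hat T := by
  classical
  exact {
    nd := s
    val := fun r => if r < p.nd then p.val r else if r = p.nd then v else
      if r < s then Sum.inr fun _ => {u | ht u ≤ ht s} else Sum.inr fun _ => ∅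
    val_default := by
      intro r hr
      have h1 : ¬ r = p.nd := fun h => hr (h.le.trans_lt hs)
      rw [if_neg fun h => hr (h.trans hs), if_neg h1, if_neg hr]
    ok := by
      intro t hts hlim i hi
      by_cases htp : t ≤ p.nd
      · have h1 : ∀ r < t, (if r < p.nd then p.val r else if r = p.nd then v else
          if r < s then Sum.inr fun _ => {u | ht u ≤ ht s} else Sum.inr fun _ => ∅) = p.val r :=
          fun r hr => if_pos (hr.trans_le htp)
        obtain ⟨r, hr, g, h2, h3⟩ := p.ok t htp hlim i fun r hr j hj => hi r hr j ((h1 r hr).trans hj)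
        exact ⟨r, hr, g, (h1 r hr).trans h2, h3⟩
      · have hpt : p.nd < t := by
          rcases tree_chain s t hts p.nd hs.le with h | h
          · exact absurd h htp
          · exact lt_of_le_of_ne h fun h' => htp h'.ge
        obtain ⟨r, hr1, hr2⟩ := hlim.2 p.nd hpt
        refine ⟨r, hr2, fun _ => {u | ht u ≤ ht s}, ?_, ?_, ?_⟩
        · rw [if_neg fun h => lt_asymm h hr1, if_neg fun h => hr1.ne' h,
            if_pos (hr2.trans_le hts)]
        · exact special_of_bounded ht (fun _ _ => ht_lt) (hT s)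
        · rcases hts.eq_or_lt with h | h
          · exact (congrArg ht h).le
          · exact (ht_lt h).le }

theorem Hat.ext_nd (hT : ∀ t : T, ht t < ω₁) (p : Hat T) (s : T) (hs : p.nd < s)
    (v : W2 ⊕ (W2 → Set T)) : (p.ext hT s hs v).nd = s := rfl

theorem Hat.ext_val (hT : ∀ t : T, ht t < ω₁) (p : Hat T) (s : T) (hs : p.nd < s)
    (v : W2 ⊕ (W2 → Set T)) : (p.ext hT s hs v).val p.nd = v := by
  unfold Hat.ext
  simp

theorem Hat.le_ext (hT : ∀ t : T, ht t < ω₁) (p : Hat T) (s : T) (hs : p.nd < s)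
    (v : W2 ⊕ (W2 → Set T)) : p ≤ p.ext hT s hs v := by
  refine ⟨hs.le, fun r hr => ?_⟩
  unfold Hat.ext
  simp [hr]

/-- the parameters of the construction -/
structure Par (T : Type) [Tree T] where
  hT : ∀ t : T, ht t < ω₁
  F : W2 → T → Set T
  η : W2 → W2 → Ordinal.{0}
  c : Hat T → ℕ

variable (P : Par T)

/-- nodes of extensions of `p` of colour `n` -/
def Bp (p : Hat T) (n : ℕ) : Set T := {s | ∃ q, p ≤ q ∧ q.nd = s ∧ P.c q = n}

/-- the minimal elements -/
def Bm (p : Hat T) (n : ℕ) : Set T := {s | s ∈ Bp P p n ∧ ∀ r < s, r ∉ Bp P p n}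

open Classical in
/-- decision -/
noncomputable def dec (p : Hat T) (n : ℕ) (s : T) : Hat T :=
  if h : s ∈ Bp P p n then Classical.choose h else p

theorem dec_spec {p : Hat T} {n : ℕ} {s : T} (h : s ∈ Bp P p n) :
    p ≤ dec P p n s ∧ (dec P p n s).nd = s ∧ P.c (dec P p n s) = n := by
  unfold dec
  rw [dif_pos h]
  exact Classical.choose_spec h

open Classical in
/-- the base functions -/
noncomputable def bs : ℕ → Obj T → Obj T
  | 0, .pair a _ => a
  | 1, .pair _ c => c
  | 2, .pair (.ord i) (.nd s) => .st (P.F i s)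
  | 3, .pair (.ord i) (.ord j) => .st {u | ht u ≤ P.η i j}
  | 4, .pair (.hat p) (.nat n) => .st (Bm P p n)
  | 5, .pair (.pair (.hat p) (.nat n)) (.nd s) => .hat (dec P p n s)
  | 6, .pair (.pair (.hat p) (.nd s)) (.ord j) =>
      .hat (if h : p.nd < s then p.ext P.hT s h (.inl j) else p)
  | 7, .pair (.pair (.hat p) (.nd s)) (.afn g) =>
      .hat (if h : p.nd < s then p.ext P.hT s h (.inr g) else p)
  | 8, .nd s => .st {t | s ⋖ t}
  | 9, _ => .st {⊥}
  | 10, _ => .hat ⊥
  | (n + 11), _ => .nat n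
  | _, a => a

theorem bs0 (a c : Obj T) : bs P 0 (.pair a c) = a := rfl
theorem bs1 (a c : Obj T) : bs P 1 (.pair a c) = c := rfl
theorem bs2 (i : W2) (s : T) : bs P 2 (.pair (.ord i) (.nd s)) = .st (P.F i s) := rfl
theorem bs3 (i j : W2) : bs P 3 (.pair (.ord i) (.ord j)) = .st {u | ht u ≤ P.η i j} := rfl
theorem bs4 (p : Hat T) (n : ℕ) : bs P 4 (.pair (.hat p) (.nat n)) = .st (Bm P p n) := rfl
theorem bs5 (p : Hat T) (n : ℕ) (s : T) :
    bs P 5 (.pair (.pair (.hat p) (.nat n)) (.nd s)) = .hat (dec P p n s) := rfl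
theorem bs6 (p : Hat T) (s : T) (h : p.nd < s) (j : W2) :
    bs P 6 (.pair (.pair (.hat p) (.nd s)) (.ord j)) = .hat (p.ext P.hT s h (.inl j)) := by
  simp [bs, h]
theorem bs7 (p : Hat T) (s : T) (h : p.nd < s) (g : W2 → Set T) :
    bs P 7 (.pair (.pair (.hat p) (.nd s)) (.afn g)) = .hat (p.ext P.hT s h (.inr g)) := by
  simp [bs, h]
theorem bs8 (s : T) : bs P 8 (.nd s) = .st {t | s ⋖ t} := rfl
theorem bs9 (a : Obj T) : bs P 9 a = .st {⊥} := by cases a <;> rfl
theorem bs10 (a : Obj T) : bs P 10 a = .hat ⊥ := by cases a <;> rfl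
theorem bs11 (n : ℕ) (a : Obj T) : bs P (n + 11) a = .nat n := by cases a <;> rfl

/-- the hull of the predecessors of `t` and of `z` -/
def Nz (t : T) (z : Set W2) : Set (Obj T) := Hl (bs P) (Sd t ∪ Obj.ord '' z)

variable {P}

theorem Nz.base {t : T} {z : Set W2} (n : ℕ) {a : Obj T} (ha : a ∈ Nz P t z) :
    bs P n a ∈ Nz P t z := Hull.app (.base n) a ha

theorem Nz.pair {t : T} {z : Set W2} {a c : Obj T} (ha : a ∈ Nz P t z) (hc : c ∈ Nz P t z) :
    Obj.pair a c ∈ Nz P t z := Hull.pair a c ha hc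

theorem Nz.nd {t : T} {z : Set W2} {s : T} (hs : s < t) : Obj.nd s ∈ Nz P t z :=
  Hl.sub _ (Or.inl (Or.inl ⟨s, hs, rfl⟩))

theorem Nz.nat {t : T} {z : Set W2} (n : ℕ) : Obj.nat n ∈ Nz P t z := by
  have h := Nz.base (P := P) (t := t) (z := z) (n + 11) (Hl.sub _ (Or.inl (Or.inr rfl)))
  rw [bs11] at h
  exact h

theorem Nz.ne_bot {t : T} {z : Set W2} (hg : Good t (Nz P t z)) : t ≠ ⊥ := by
  rintro rfl
  have h := Nz.base (P := P) 9 (Nz.nat (P := P) (t := (⊥ : T)) (z := z) 0)
  rw [bs9] at h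
  exact hg _ h (special_singleton _) rfl

theorem Nz.lim {t : T} {z : Set W2} (hg : Good t (Nz P t z)) : LimNd t := by
  refine ⟨Nz.ne_bot hg, fun s hs => ?_⟩
  by_contra hcon
  push Not at hcon
  have h := Nz.base (P := P) 8 (Nz.nd (P := P) (z := z) hs)
  rw [bs8] at h
  refine hg _ h (special_of_isAntichain ?_) ⟨hs, fun r h1 h2 => hcon r h1 h2⟩
  rintro a ha b hb hne hle
  exact hb.2 ha.lt (lt_of_le_of_ne hle hne)

/-- a maximal `z` -/
theorem exists_max {t : T} (hg : Good t (Hl (bs P) (Sd t))) :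
    ∃ z : Set W2, Good t (Nz P t z) ∧ ∀ i : W2, Good t (Nz P t (z ∪ {i})) → i ∈ z := by
  obtain ⟨z, hz⟩ := zorn_subset {z : Set W2 | Good t (Nz P t z)} (by
    intro C hC hchain
    rcases C.eq_empty_or_nonempty with rfl | hne
    · refine ⟨∅, ?_, fun s hs => absurd hs (Set.notMem_empty _)⟩
      change Good t (Nz P t ∅)
      unfold Nz
      rw [Set.image_empty, Set.union_empty]
      exact hg
    · refine ⟨⋃₀ C, ?_, fun s hs => Set.subset_sUnion_of_mem hs⟩
      intro A hA hsp htA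
      obtain ⟨F, hF, hfin, hA'⟩ := Hl.fin hA
      have key : ∃ z ∈ C, F ⊆ Sd t ∪ Obj.ord '' z := by
        have h1 : ∀ F : Set (Obj T), F.Finite → F ⊆ Sd t ∪ Obj.ord '' (⋃₀ C) →
            ∃ z ∈ C, F ⊆ Sd t ∪ Obj.ord '' z := by
          intro F hfin
          induction F, hfin using Set.Finite.induction_on with
          | empty =>
            intro _
            obtain ⟨z, hz⟩ := hne
            exact ⟨z, hz, Set.empty_subset _⟩
          | @insert a G _ _ ih =>
            intro hF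
            obtain ⟨z, hz, hG⟩ := ih ((Set.subset_insert a G).trans hF)
            rcases hF (Set.mem_insert a G) with ha | ⟨i, ⟨z', hz', hi⟩, rfl⟩
            · exact ⟨z, hz, Set.insert_subset (Or.inl ha) hG⟩
            · rcases hchain.total hz hz' with h | h
              · exact ⟨z', hz', Set.insert_subset (Or.inr ⟨i, hi, rfl⟩)
                  (hG.trans (Set.union_subset_union_right _ (Set.image_mono h)))⟩
              · exact ⟨z, hz, Set.insert_subset (Or.inr ⟨i, h hi, rfl⟩) hG⟩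
        exact h1 F hfin hF
      obtain ⟨z, hz, hFz⟩ := key
      exact hC hz A (Hl.mono (hFz.trans (Hl.sub _)) hA') hsp htA)
  refine ⟨z, hz.prop, fun i hi => ?_⟩
  exact hz.le_of_ge (y := z ∪ {i}) hi Set.subset_union_left (Or.inr rfl)

/-- consequence of maximality -/
theorem max_spec {t : T} {z : Set W2} (hmax : ∀ i : W2, Good t (Nz P t (z ∪ {i})) → i ∈ z)
    (i : W2) (hi : ∀ j, Obj.ord j ∈ Nz P t z → j < i) :
    ∃ g, Obj.afn g ∈ Nz P t z ∧ Special (g i) ∧ t ∈ g i := by
  have h1 : i ∉ z := fun h => lt_irrefl i (hi i (Hl.sub _ (Or.inr ⟨i, h, rfl⟩)))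
  have h2 : ¬ Good t (Nz P t (z ∪ {i})) := fun h => h1 (hmax i h)
  unfold Good at h2
  push Not at h2
  obtain ⟨A, hA, hsp, htA⟩ := h2
  have h3 : Obj.st A ∈ Hl (bs P) (Hl (bs P) (Sd t ∪ Obj.ord '' z) ∪ {Obj.ord i}) := by
    refine Hl.mono (Set.Subset.trans ?_ (Hl.sub _)) hA
    rintro a (ha | ⟨j, hj | hj, rfl⟩)
    · exact Or.inl (Hl.sub _ (Or.inl ha))
    · exact Or.inl (Hl.sub _ (Or.inr ⟨j, hj, rfl⟩))
    · rw [Set.mem_singleton_iff.1 hj]
      exact Or.inr rfl
  obtain ⟨u, n, hn, h4⟩ := Hl.adjoin (bs0 P) (bs1 P) ⟨Obj.nat 0, Or.inl (Or.inr rfl)⟩ i h3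
  refine ⟨fun j => toSet (eval (bs P) u (.pair n (.ord j))), Hull.app (.curry u) n hn, ?_, ?_⟩
  · dsimp only
    rw [← h4]
    exact hsp
  · dsimp only
    rw [← h4]
    exact htA

/-- one step of the construction -/
theorem step {t : T} {z : Set W2} (hg : Good t (Nz P t z)) (a : Obj T) (ha : a ∈ Nz P t z)
    (hcol : ∀ p q : Hat T, p < q → P.c p ≠ P.c q)
    (p : Hat T) (hp : Obj.hat p ∈ Nz P t z) (hpt : p.nd < t) :
    ∃ q, p ≤ q ∧ Obj.hat q ∈ Nz P t z ∧ q.nd < t ∧
      (∀ j, a = Obj.ord j → ∃ s < q.nd, q.val s = Sum.inl j) ∧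
      (∀ g, a = Obj.afn g → ∃ s < q.nd, q.val s = Sum.inr g) ∧
      (∀ s, a = Obj.nd s → s < t → s ≤ q.nd) ∧
      (∀ n, a = Obj.nat n → ∀ r : Hat T, q ≤ r → r.nd = t → P.c r ≠ n) := by
  have hlim := Nz.lim hg
  obtain ⟨s', hs1, hs2⟩ := hlim.2 p.nd hpt
  cases a with
  | ord j =>
    refine ⟨p.ext P.hT s' hs1 (.inl j), p.le_ext _ _ _ _, ?_, hs2, ?_, ?_, ?_, ?_⟩
    · rw [← bs6 P]
      exact Nz.base 6 (Nz.pair (Nz.pair hp (Nz.nd hs2)) ha)
    · intro j' hj'
      cases hj'
      exact ⟨p.nd, hs1, p.ext_val _ _ _ _⟩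
    all_goals
      intro x hx
      cases hx
  | afn g =>
    refine ⟨p.ext P.hT s' hs1 (.inr g), p.le_ext _ _ _ _, ?_, hs2, ?_, ?_, ?_, ?_⟩
    · rw [← bs7 P]
      exact Nz.base 7 (Nz.pair (Nz.pair hp (Nz.nd hs2)) ha)
    · intro x hx
      cases hx
    · intro j' hj'
      cases hj'
      exact ⟨p.nd, hs1, p.ext_val _ _ _ _⟩
    all_goals
      intro x hx
      cases hx
  | nd s =>
    by_cases hst : s < t
    · -- a node above `p.nd` and `s`
      have h1 : ∃ r, p.nd < r ∧ s ≤ r ∧ r < t := by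
        rcases tree_chain t s hst.le s' hs2.le with h | h
        · exact ⟨s', hs1, h, hs2⟩
        · exact ⟨s, hs1.trans_le h, le_rfl, hst⟩
      obtain ⟨r, hr1, hr2, hr3⟩ := h1
      have hmem : Obj.hat (p.ext P.hT r hr1 (.inr fun _ => {⊥})) ∈ Nz P t z := by
        have h2 : Obj.afn (fun _ : W2 => ({⊥} : Set T)) ∈ Nz P t z := by
          have h3 : Obj.afn (fun i => toSet (eval (bs P) (.base 9) (.pair (.nat 0) (.ord i)))) ∈
              Nz P t z := Hull.app (.curry (.base 9)) _ (Nz.nat 0)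
          have h4 : (fun i => toSet (eval (bs P) (.base 9) (.pair (.nat 0) (.ord i)))) =
              (fun _ : W2 => ({⊥} : Set T)) := by
            funext i
            change toSet (bs P 9 _) = _
            rw [bs9]
            rfl
          rw [h4] at h3
          exact h3
        rw [← bs7 P]
        exact Nz.base 7 (Nz.pair (Nz.pair hp (Nz.nd hr3)) h2)
      refine ⟨_, p.le_ext P.hT r hr1 _, hmem, hr3, ?_, ?_, ?_, ?_⟩
      · intro x hx
        cases hx
      · intro x hx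
        cases hx
      · intro x hx _
        cases hx
        exact hr2
      · intro x hx
        cases hx
    · refine ⟨p, le_rfl, hp, hpt, ?_, ?_, ?_, ?_⟩
      · intro x hx
        cases hx
      · intro x hx
        cases hx
      · intro x hx h
        cases hx
        exact absurd h hst
      · intro x hx
        cases hx
  | nat n =>
    by_cases ht : t ∈ Bp P p n
    · have h1 : t ∉ Bm P p n := by
        refine hg _ ?_ (special_of_isAntichain ?_)
        · rw [← bs4 P]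
          exact Nz.base 4 (Nz.pair hp ha)
        · rintro x hx y hy hne hle
          exact hy.2 x (lt_of_le_of_ne hle hne) hx.1
      have h2 : ∃ s < t, s ∈ Bp P p n := by
        by_contra hcon
        push Not at hcon
        exact h1 ⟨ht, hcon⟩
      obtain ⟨s, hs, hsB⟩ := h2
      obtain ⟨h3, h4, h5⟩ := dec_spec P hsB
      refine ⟨dec P p n s, h3, ?_, h4.symm ▸ hs, ?_, ?_, ?_, ?_⟩
      · rw [← bs5 P]
        exact Nz.base 5 (Nz.pair (Nz.pair hp ha) (Nz.nd hs))
      · intro x hx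
        cases hx
      · intro x hx
        cases hx
      · intro x hx
        cases hx
      · intro m hm r hr hrt heq
        cases hm
        have h6 : dec P p n s < r := lt_of_le_of_ne hr fun h => by
          rw [← h, h4] at hrt
          exact hs.ne hrt
        exact hcol _ _ h6 (h5.trans heq.symm)
    · refine ⟨p, le_rfl, hp, hpt, ?_, ?_, ?_, ?_⟩
      · intro x hx
        cases hx
      · intro x hx
        cases hx
      · intro x hx
        cases hx
      · intro m hm r hr hrt heq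
        cases hm
        exact ht ⟨r, hr, hrt, heq⟩
  | st A =>
    refine ⟨p, le_rfl, hp, hpt, ?_, ?_, ?_, ?_⟩ <;>
    · intro x hx
      cases hx
  | hat q =>
    refine ⟨p, le_rfl, hp, hpt, ?_, ?_, ?_, ?_⟩ <;>
    · intro x hx
      cases hx
  | pair x y =>
    refine ⟨p, le_rfl, hp, hpt, ?_, ?_, ?_, ?_⟩ <;>
    · intro x hx
      cases hx

/-- the generic node gives a contradiction -/
theorem contra {t : T} {z : Set W2} (hg : Good t (Nz P t z)) (hz : z.Countable)
    (hmax : ∀ i : W2, Good t (Nz P t (z ∪ {i})) → i ∈ z)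
    (hcol : ∀ p q : Hat T, p < q → P.c p ≠ P.c q) : False := by
  classical
  have hN : (Nz P t z).Countable := by
    refine Hl.countable ?_
    refine Set.Countable.union (Set.Countable.union ?_ (Set.countable_singleton _)) (hz.image _)
    exact ((tree_countable P.hT t).mono fun s hs => le_of_lt hs).image _
  obtain ⟨ν, hν⟩ := hN.exists_eq_range ⟨_, Nz.nat 0⟩
  have hνm : ∀ k, ν k ∈ Nz P t z := fun k => by
    rw [hν]
    exact ⟨k, rfl⟩
  have hlim := Nz.lim hg
  let St := {p : Hat T // Obj.hat p ∈ Nz P t z ∧ p.nd < t}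
  have hstep : ∀ (k : ℕ) (p : St), ∃ q : St, p.1 ≤ q.1 ∧
      (∀ j, ν k = Obj.ord j → ∃ s < q.1.nd, q.1.val s = Sum.inl j) ∧
      (∀ g, ν k = Obj.afn g → ∃ s < q.1.nd, q.1.val s = Sum.inr g) ∧
      (∀ s, ν k = Obj.nd s → s < t → s ≤ q.1.nd) ∧
      (∀ n, ν k = Obj.nat n → ∀ r : Hat T, q.1 ≤ r → r.nd = t → P.c r ≠ n) := by
    intro k p
    obtain ⟨q, h1, h2, h3, h4⟩ := step hg (ν k) (hνm k) hcol p.1 p.2.1 p.2.2
    exact ⟨⟨q, h2, h3⟩, h1, h4⟩
  choose nx hnx using hstep
  have hbot : Obj.hat (⊥ : Hat T) ∈ Nz P t z := by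
    have h := Nz.base (P := P) 10 (Nz.nat (P := P) (t := t) (z := z) 0)
    rw [bs10] at h
    exact h
  let p0 : St := ⟨⊥, hbot, bot_lt_iff_ne_bot.2 hlim.1⟩
  let p : ℕ → St := fun k => Nat.rec p0 (fun k q => nx k q) k
  have hps : ∀ k, p (k + 1) = nx k (p k) := fun k => rfl
  have hmono : Monotone fun k => (p k).1 := monotone_nat_of_le_succ fun k => by
    rw [hps]
    exact (hnx k (p k)).1
  have hagree : ∀ k m s, s < (p k).1.nd → s < (p m).1.nd → (p k).1.val s = (p m).1.val s := by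
    intro k m s hk hm
    rcases le_total k m with h | h
    · exact (hmono h).2 s hk
    · exact ((hmono h).2 s hm).symm
  let val : T → W2 ⊕ (W2 → Set T) := fun s =>
    if h : ∃ k, s < (p k).1.nd then (p (Classical.choose h)).1.val s else Sum.inr fun _ => ∅
  have hval : ∀ k s, s < (p k).1.nd → val s = (p k).1.val s := by
    intro k s hs
    have h : ∃ k, s < (p k).1.nd := ⟨k, hs⟩
    simp only [val, dif_pos h]
    exact hagree _ _ s (Classical.choose_spec h) hs
  have hcof : ∀ s < t, ∃ k, s ≤ (p k).1.nd := by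
    intro s hs
    have h1 : Obj.nd s ∈ Set.range ν := hν ▸ Nz.nd (P := P) (z := z) hs
    obtain ⟨k, hk⟩ := h1
    exact ⟨k + 1, (hnx k (p k)).2.2.2.1 s hk hs⟩
  let r : Hat T := {
    nd := t
    val := val
    val_default := by
      intro s hs
      have h : ¬ ∃ k, s < (p k).1.nd := fun ⟨k, hk⟩ => hs (hk.trans (p k).2.2)
      simp only [val, dif_neg h]
    ok := by
      intro t' ht' hlim' i hi
      rcases ht'.eq_or_lt with rfl | ht'
      · have h1 : ∀ j, Obj.ord j ∈ Nz P t' z → j < i := by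
          intro j hj
          obtain ⟨k, hk⟩ : Obj.ord j ∈ Set.range ν := hν ▸ hj
          obtain ⟨s, hs, hs'⟩ := (hnx k (p k)).2.1 j hk
          have h2 : s < t' := hs.trans (p (k + 1)).2.2
          exact hi s h2 j ((hval (k + 1) s hs).trans hs')
        obtain ⟨g, hgN, h2, h3⟩ := max_spec hmax i h1
        obtain ⟨k, hk⟩ : Obj.afn g ∈ Set.range ν := hν ▸ hgN
        obtain ⟨s, hs, hs'⟩ := (hnx k (p k)).2.2.1 g hk
        exact ⟨s, hs.trans (p (k + 1)).2.2, g, (hval (k + 1) s hs).trans hs', h2, h3⟩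
      · obtain ⟨k, hk⟩ := hcof t' ht'
        obtain ⟨s, hs, g, h1, h2⟩ := (p k).1.ok t' hk hlim' i fun s hs j hj =>
          hi s hs j ((hval k s (hs.trans_le hk)).trans hj)
        exact ⟨s, hs, g, (hval k s (hs.trans_le hk)).trans h1, h2⟩ }
  have hpr : ∀ k, (p k).1 ≤ r := fun k => ⟨(p k).2.2.le, fun s hs => (hval k s hs).symm⟩
  obtain ⟨k, hk⟩ : Obj.nat (P.c r) ∈ Set.range ν := hν ▸ Nz.nat (P := P) (t := t) (z := z) (P.c r)
  exact (hnx k (p k)).2.2.2.2 (P.c r) hk r (hpr (k + 1)) rfl rfl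

end

theorem taskN2 : TaskN2 := by
  classical
  intro T _ hT x h hx hx1 hh hns hnot hsp
  obtain ⟨c, hc⟩ := (special_iff _).1 hsp
  choose f hf1 hf2 using hns
  let P : Par T := {
    hT := hT
    F := fun i s => {t | t ∈ {t : T | x i ∩ Set.Iio (ht t) ∉ h (ht t)} ∧ f i t = s}
    η := fun i j => sInf {η | ¬ (η ∈ x i ↔ η ∈ x j)}
    c := c }
  obtain ⟨t, ht⟩ := exists_good (b := bs P) hT hnot
  obtain ⟨z, hg, hmax⟩ := exists_max ht
  refine contra hg ?_ hmax fun p q hpq => hc p (Set.mem_univ _) q (Set.mem_univ _) hpq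
  -- `z` is countable
  have h1 : ∀ i ∈ z, x i ∩ Set.Iio (NST.ht t) ∈ h (NST.ht t) := by
    intro i hi
    by_contra hcon
    have h2 : Obj.ord i ∈ Nz P t z := Hl.sub _ (Or.inr ⟨i, hi, rfl⟩)
    have h3 : f i t < t := hf1 i t hcon (Nz.ne_bot hg)
    have h4 := Nz.base (P := P) 2 (Nz.pair h2 (Nz.nd h3))
    rw [bs2] at h4
    exact hg _ h4 (hf2 i _) ⟨hcon, rfl⟩
  have h5 : Set.InjOn (fun i => x i ∩ Set.Iio (NST.ht t)) z := by
    intro i hi j hj hij
    by_contra hne
    have h6 : {η | ¬ (η ∈ x i ↔ η ∈ x j)}.Nonempty := by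
      by_contra h7
      rw [Set.not_nonempty_iff_eq_empty] at h7
      apply hne
      apply hx
      ext η
      by_contra h8
      have h9 : η ∈ {η | ¬ (η ∈ x i ↔ η ∈ x j)} := h8
      rw [h7] at h9
      exact h9
    have h7 := csInf_mem h6
    have h8 : P.η i j < NST.ht t := by
      by_contra h9
      push Not at h9
      have h10 := Nz.base (P := P) 3 (Nz.pair (Hl.sub _ (Or.inr ⟨i, hi, rfl⟩) : Obj.ord i ∈ Nz P t z)
        (Hl.sub _ (Or.inr ⟨j, hj, rfl⟩) : Obj.ord j ∈ Nz P t z))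
      rw [bs3] at h10
      refine hg _ h10 (special_of_bounded NST.ht (fun _ _ => ht_lt) ?_) h9
      -- the first difference is countable
      by_contra h11
      push Not at h11
      apply h7
      have h12 : P.η i j ∉ x i := fun h => absurd (hx1 i h) (not_lt_of_ge h11)
      have h13 : P.η i j ∉ x j := fun h => absurd (hx1 j h) (not_lt_of_ge h11)
      exact ⟨fun h => absurd h h12, fun h => absurd h h13⟩
    apply h7
    have h9 : ∀ η < NST.ht t, (η ∈ x i ↔ η ∈ x j) := by
      intro η hη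
      have h10 : η ∈ x i ∩ Set.Iio (NST.ht t) ↔ η ∈ x j ∩ Set.Iio (NST.ht t) := by
        have h11 : x i ∩ Set.Iio (NST.ht t) = x j ∩ Set.Iio (NST.ht t) := hij
        rw [h11]
      exact ⟨fun h => (h10.1 ⟨h, hη⟩).1, fun h => (h10.2 ⟨h, hη⟩).1⟩
    exact h9 _ h8
  exact Set.MapsTo.countable_of_injOn (fun i hi => h1 i hi) h5 (hh _)

end Pool.Agent.R595.NST
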