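import Pool.Agent.R595.NST.Basic

/-!
# The tree for the negative half: definitions and subtasks
-/

set_option autoImplicit false

namespace Pool.Agent.R595.NST

open Cardinal Ordinal

/-- the well-ordered type of order type `ω₂` -/
abbrev W2 : Type := (ω_ 2 : Ordinal.{0}).ToType

variable {T : Type} [Tree T]

/-- limit nodes -/
def LimNd (t : T) : Prop := t ≠ ⊥ ∧ ∀ s < t, ∃ r, s < r ∧ r < t

/-- the tree `T^`: nodes `t` of `T` with a function `val` on the set of the predecessors of `t`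
with values in `ω₂` or functions from `ω₂` to sets of nodes, such that: for every limit node
`t' ≤ t` and every `i < ω₂` which is above all ordinals `val s`, `s < t'`, there is `s < t'` with
`val s = g`, `g i` special and `t' ∈ g i` -/
structure Hat (T : Type) [Tree T] where
  nd : T
  val : T → W2 ⊕ (W2 → Set T)
  val_default : ∀ s, ¬ s < nd → val s = Sum.inr fun _ => ∅
  ok : ∀ t ≤ nd, LimNd t → ∀ i : W2, (∀ s < t, ∀ j, val s = Sum.inl j → j < i) →
    ∃ s < t, ∃ g, val s = Sum.inr g ∧ Special (g i) ∧ t ∈ g i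

theorem Hat.ext' {p q : Hat T} (h1 : p.nd = q.nd) (h2 : p.val = q.val) : p = q := by
  cases p
  cases q
  cases h1
  cases h2
  rfl

instance : PartialOrder (Hat T) where
  le p q := p.nd ≤ q.nd ∧ ∀ s < p.nd, p.val s = q.val s
  le_refl p := ⟨le_rfl, fun _ _ => rfl⟩
  le_trans p q r h1 h2 := ⟨h1.1.trans h2.1, fun s hs =>
    (h1.2 s hs).trans (h2.2 s (hs.trans_le h1.1))⟩
  le_antisymm p q h1 h2 := by
    have h3 := le_antisymm h1.1 h2.1
    refine Hat.ext' h3 (funext fun s => ?_)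
    by_cases h : s < p.nd
    · exact h1.2 s h
    · rw [p.val_default s h, q.val_default s (h3 ▸ h)]

instance : OrderBot (Hat T) where
  bot := ⟨⊥, fun _ => Sum.inr fun _ => ∅, fun _ _ => rfl,
    fun t h1 h2 => absurd (le_bot_iff.1 h1) h2.1⟩
  bot_le p := ⟨bot_le, fun s hs => absurd hs not_lt_bot⟩

theorem Hat.nd_lt {p q : Hat T} (h : p < q) : p.nd < q.nd := by
  refine lt_of_le_of_ne h.le.1 fun h1 => h.ne (Hat.ext' h1 (funext fun s => ?_))
  by_cases hs : s < p.nd
  · exact h.le.2 s hs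
  · rw [p.val_default s hs, q.val_default s (h1 ▸ hs)]

theorem Hat.le_of_nd_le {p q r : Hat T} (hp : p ≤ r) (hq : q ≤ r) (h : p.nd ≤ q.nd) : p ≤ q :=
  ⟨h, fun s hs => (hp.2 s hs).trans (hq.2 s (hs.trans_le h)).symm⟩

/-- the embedding of the set of the predecessors of `p` -/
def Hat.emb (p : Hat T) :
    (fun a b : Set.Iio p => a < b) ↪r (fun a b : Set.Iio p.nd => a < b) where
  toFun q := ⟨q.1.nd, Hat.nd_lt q.2⟩
  inj' q q' h := by
    have h1 : q.1.nd = q'.1.nd := congrArg Subtype.val h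
    exact Subtype.ext (le_antisymm (Hat.le_of_nd_le q.2.le q'.2.le h1.le)
      (Hat.le_of_nd_le q'.2.le q.2.le h1.ge))
  map_rel_iff' {q q'} := by
    change q.1.nd < q'.1.nd ↔ q.1 < q'.1
    constructor
    · intro h
      refine lt_of_le_of_ne (Hat.le_of_nd_le q.2.le q'.2.le h.le) fun h1 => ?_
      rw [h1] at h
      exact lt_irrefl _ h
    · exact Hat.nd_lt

instance : Tree (Hat T) where
  wo p := by
    have := Tree.wo p.nd
    exact p.emb.isWellOrder

theorem Hat.ht_le (p : Hat T) : ht p ≤ ht p.nd := by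
  have := Tree.wo p.nd
  have := Tree.wo p
  exact p.emb.ordinal_type_le

/-- **N1** -/
def TaskN1 : Prop := ∀ (T : Type) [Tree T], (∀ t : T, ht t < ω₁) →
  ∀ i : W2, Special {p : Hat T | ∀ s < p.nd, ∀ j, p.val s = Sum.inl j → j < i}

/-- **N2** -/
def TaskN2 : Prop := ∀ (T : Type) [Tree T], (∀ t : T, ht t < ω₁) →
  ∀ (x : W2 → Set Ordinal.{0}) (h : Ordinal.{0} → Set (Set Ordinal.{0})),
    Function.Injective x → (∀ i, x i ⊆ Set.Iio ω₁) → (∀ δ, (h δ).Countable) →
    (∀ i, NSup {t : T | x i ∩ Set.Iio (ht t) ∉ h (ht t)}) → ¬ NSup (Set.univ : Set T) →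
    ¬ Special (Set.univ : Set (Hat T))

/-- **N3** -/
def TaskN3 : Prop := Diamond → ∃ (I : Set (Set Ordinal.{0})) (x : W2 → Set Ordinal.{0})
  (h : Ordinal.{0} → Set (Set Ordinal.{0})), IsNormalIdeal I ∧
    Function.Injective x ∧ (∀ i, x i ⊆ Set.Iio ω₁) ∧ (∀ δ, (h δ).Countable) ∧
    ∀ i, {δ | δ < ω₁ ∧ x i ∩ Set.Iio δ ∉ h δ} ∈ I

end Pool.Agent.R595.NST
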