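import Pool.Agent.R595.NST.P2
import Pool.Agent.R595.NST.NegDefs

/-!
# The ideal from diamond
-/

set_option autoImplicit false

namespace Pool.Agent.R595.NST

open Cardinal Ordinal

theorem exists_pairing : ∃ (π : Ordinal.{0} → Ordinal.{0} → Ordinal.{0}) (p q : Ordinal.{0} →
    Ordinal.{0}), (∀ a < ω₁, ∀ b < ω₁, π a b < ω₁) ∧
      ∀ a < ω₁, ∀ b < ω₁, p (π a b) = a ∧ q (π a b) = b := by
  classical
  have h1 : #(Set.Iio (ω₁ : Ordinal.{0}) × Set.Iio (ω₁ : Ordinal.{0})) =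
      #(Set.Iio (ω₁ : Ordinal.{0})) := by
    rw [Cardinal.mk_prod, Cardinal.lift_id]
    refine Cardinal.mul_eq_self ?_
    rw [Cardinal.mk_Iio_ordinal]
    simp
  obtain ⟨φ⟩ := Cardinal.eq.1 h1
  refine ⟨fun a b => if h : a < ω₁ ∧ b < ω₁ then (φ (⟨a, h.1⟩, ⟨b, h.2⟩)).1 else 0,
    fun ν => if h : ν < ω₁ then (φ.symm ⟨ν, h⟩).1.1 else 0,
    fun ν => if h : ν < ω₁ then (φ.symm ⟨ν, h⟩).2.1 else 0, ?_, ?_⟩
  · intro a ha b hb
    simp only [dif_pos (⟨ha, hb⟩ : a < ω₁ ∧ b < ω₁)]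
    exact (φ (⟨a, ha⟩, ⟨b, hb⟩)).2
  · intro a ha b hb
    have h2 : (φ (⟨a, ha⟩, ⟨b, hb⟩)).1 < ω₁ := (φ (⟨a, ha⟩, ⟨b, hb⟩)).2
    simp only [dif_pos (⟨ha, hb⟩ : a < ω₁ ∧ b < ω₁), dif_pos h2]
    constructor <;> simp

theorem taskN3 : TaskN3 := by
  classical
  rintro ⟨A, hA⟩
  obtain ⟨π, p, q, hπ, hpq⟩ := exists_pairing
  obtain ⟨gπ, hgπ, hgπ'⟩ := bound3_1 (fun _ a b _ => π a b) (fun _ a ha b hb _ _ => hπ a ha b hb)
  have hcl : ∀ δ ∈ clPts gπ ω₁, ∀ a < δ, ∀ b < δ, π a b < δ := by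
    intro δ hδ a ha b hb
    have h1 : max a b < δ := max_lt ha hb
    exact (hgπ' _ (h1.trans hδ.1) 0 a (le_max_left _ _) b (le_max_right _ _) 0 (zero_le)).trans
      (hδ.2.2 _ h1)
  let h : Ordinal.{0} → Set (Set Ordinal.{0}) := fun δ =>
    {S | δ < ω₁ ∧ ∃ η < δ, S = {ζ | ζ < δ ∧ π η ζ ∈ A δ}}
  let I : Set (Set Ordinal.{0}) := {X | X ⊆ Set.Iio ω₁ ∧ ∃ (y : Ordinal.{0} → Set Ordinal.{0})
    (g : Ordinal.{0} → Ordinal.{0}), (∀ ξ < ω₁, g ξ < ω₁) ∧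
      ∀ δ ∈ X, δ ∈ clPts g ω₁ → ∃ η < δ, y η ∩ Set.Iio δ ∉ h δ}
  have hdiag : ∀ X : Ordinal.{0} → Set Ordinal.{0}, (∀ α < ω₁, X α ∈ I) →
      {β | β < ω₁ ∧ ∃ α < β, β ∈ X α} ∈ I := by
    intro X hX
    have h1 : ∀ α : Ordinal.{0}, ∃ (y : Ordinal.{0} → Set Ordinal.{0})
        (g : Ordinal.{0} → Ordinal.{0}), α < ω₁ → (∀ ξ < ω₁, g ξ < ω₁) ∧
        ∀ δ ∈ X α, δ ∈ clPts g ω₁ → ∃ η < δ, y η ∩ Set.Iio δ ∉ h δ := by
      intro α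
      by_cases hα : α < ω₁
      · obtain ⟨_, y, g, h2⟩ := hX α hα
        exact ⟨y, g, fun _ => h2⟩
      · exact ⟨fun _ => ∅, fun _ => 0, fun h => absurd h hα⟩
    choose y g hyg using h1
    obtain ⟨G, hG, hG'⟩ := bound3_1 (fun _ a b _ => g a b) (fun _ a ha b hb _ _ => (hyg a ha).1 b hb)
    refine ⟨fun β hβ => hβ.1, fun ν => y (p ν) (q ν), fun ξ => max (G ξ) (gπ ξ),
      fun ξ hξ => max_lt (hG ξ hξ) (hgπ ξ hξ), ?_⟩
    rintro δ ⟨hδ, α, hα, hδX⟩ hcδ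
    rw [clPts_max] at hcδ
    have h2 : δ ∈ clPts (g α) ω₁ := by
      refine ⟨hδ, hcδ.1.2.1, fun ξ hξ => ?_⟩
      have h3 : max α ξ < δ := max_lt hα hξ
      exact (hG' _ (h3.trans hδ) 0 α (le_max_left _ _) ξ (le_max_right _ _) 0 (zero_le)).trans
        (hcδ.1.2.2 _ h3)
    obtain ⟨η, hη, h3⟩ := (hyg α (hα.trans hδ)).2 δ hδX h2
    refine ⟨π α η, hcl δ hcδ.2 α hα η hη, ?_⟩
    have h4 := hpq α (hα.trans hδ) η (hη.trans hδ)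
    beta_reduce
    rw [h4.1, h4.2]
    exact h3
  have hI : IsNormalIdeal I := by
    refine ⟨fun X hX => hX.1, ?_, ?_, ?_, ?_, hdiag⟩
    · rintro X ⟨h1, y, g, h2, h3⟩ Y hY
      exact ⟨hY.trans h1, y, g, h2, fun δ hδ => h3 δ (hY hδ)⟩
    · rintro X ⟨h1, y, g, h2, h3⟩ Y ⟨h1', y', g', h2', h3'⟩
      refine ⟨Set.union_subset h1 h1', fun ν => if p ν = 0 then y (q ν) else y' (q ν),
        fun ξ => max (max (g ξ) (g' ξ)) (max (gπ ξ) 1), fun ξ hξ =>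
        max_lt (max_lt (h2 ξ hξ) (h2' ξ hξ)) (max_lt (hgπ ξ hξ) ?_), ?_⟩
      · exact Ordinal.one_lt_omega0.trans omega0_lt_omega_one
      · intro δ hδ hcδ
        rw [clPts_max, clPts_max, clPts_max] at hcδ
        have h1δ : 1 < δ := hcδ.2.2.2.2 0 hcδ.1.1.2.1
        have hδ1 : δ < ω₁ := hcδ.1.1.1
        rcases hδ with hδ | hδ
        · obtain ⟨η, hη, h4⟩ := h3 δ hδ hcδ.1.1
          refine ⟨π 0 η, hcl δ hcδ.2.1 0 hcδ.1.1.2.1 η hη, ?_⟩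
          have h5 := hpq 0 (hcδ.1.1.2.1.trans hδ1) η (hη.trans hδ1)
          beta_reduce
          rw [h5.1, h5.2, if_pos rfl]
          exact h4
        · obtain ⟨η, hη, h4⟩ := h3' δ hδ hcδ.1.2
          refine ⟨π 1 η, hcl δ hcδ.2.1 1 h1δ η hη, ?_⟩
          have h5 := hpq 1 (h1δ.trans hδ1) η (hη.trans hδ1)
          beta_reduce
          rw [h5.1, h5.2, if_neg one_ne_zero]
          exact h4
    · rintro ⟨_, y, g, h2, h3⟩
      let Z : Set Ordinal.{0} := {ν | ν < ω₁ ∧ ∃ η < ω₁, ∃ ζ < ω₁, ν = π η ζ ∧ ζ ∈ y η}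
      obtain ⟨δ, ⟨hδ, hZ⟩, hcδ⟩ := hA Z (fun ν hν => hν.1) _ (club_clPts regO1
        (fun ξ => max (g ξ) (gπ ξ)) fun ξ hξ => max_lt (h2 ξ hξ) (hgπ ξ hξ))
      rw [clPts_max] at hcδ
      obtain ⟨η, hη, h4⟩ := h3 δ hδ hcδ.1
      apply h4
      refine ⟨hδ, η, hη, ?_⟩
      ext ζ
      constructor
      · rintro ⟨h5, h6⟩
        have h6' : ζ < δ := h6
        refine ⟨h6', ?_⟩
        rw [← hZ]
        exact ⟨⟨hπ η (hη.trans hδ) ζ (h6'.trans hδ), η, hη.trans hδ, ζ, h6'.trans hδ, rfl, h5⟩,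
          hcl δ hcδ.2 η hη ζ h6'⟩
      · rintro ⟨h5, h6⟩
        rw [← hZ] at h6
        obtain ⟨⟨_, η', hη', ζ', hζ', h7, h8⟩, _⟩ := h6
        have h9 := hpq η (hη.trans hδ) ζ (h5.trans hδ)
        have h10 := hpq η' hη' ζ' hζ'
        rw [h7] at h9
        rw [h9.1] at h10
        rw [h9.2] at h10
        refine ⟨?_, h5⟩
        rw [h10.1, h10.2]
        exact h8
    · intro α hα
      refine ⟨Set.singleton_subset_iff.2 hα, fun _ => ∅, fun _ => α, fun _ _ => hα, ?_⟩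
      intro δ hδ hcδ
      rw [Set.mem_singleton_iff.1 hδ] at hcδ
      exact absurd (hcδ.2.2 0 hcδ.2.1) (lt_irrefl _)
  have hinj : Nonempty (W2 ↪ 𝒫 (Set.Iio (ω₁ : Ordinal.{0}))) := by
    rw [← Cardinal.lift_mk_le']
    rw [Cardinal.mk_powerset, Cardinal.mk_Iio_ordinal]
    have h1 : #W2 = ℵ_ 2 := by
      rw [Cardinal.mk_toType, Ordinal.card_omega]
    rw [h1]
    have h2 : (ℵ_ 2 : Cardinal.{0}) ≤ 2 ^ ℵ₁ := by
      have h3 : (ℵ_ 2 : Cardinal.{0}) = Order.succ ℵ₁ := by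
        rw [Cardinal.succ_aleph, one_add_one_eq_two]
      rw [h3]
      exact Order.succ_le_of_lt (Cardinal.cantor _)
    have h4 := Cardinal.lift_le.{1}.2 h2
    rw [Cardinal.lift_power, Cardinal.lift_two] at h4
    simpa using h4
  obtain ⟨x⟩ := hinj
  refine ⟨I, fun i => (x i).1, h, hI, fun i j hij => x.injective (Subtype.ext hij),
    fun i => (x i).2, ?_, ?_⟩
  · intro δ
    by_cases hδ : δ < ω₁
    · refine ((countable_Iio hδ).image fun η => {ζ | ζ < δ ∧ π η ζ ∈ A δ}).mono ?_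
      rintro S ⟨_, η, hη, rfl⟩
      exact ⟨η, hη, rfl⟩
    · refine Set.countable_empty.mono ?_
      rintro S ⟨h1, _⟩
      exact absurd h1 hδ
  · intro i
    refine ⟨fun δ hδ => hδ.1, fun _ => (x i).1, fun _ => 0, fun _ _ => Ordinal.omega_pos 1, ?_⟩
    intro δ hδ hcδ
    exact ⟨0, hcδ.2.1, hδ.2⟩

end Pool.Agent.R595.NST
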