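import Pool.Agent.R595.NST.NegDefs

/-!
# The negative half: assembly
-/

set_option autoImplicit false

namespace Pool.Agent.R595.NST

open Cardinal Ordinal

theorem W2_bounded {J : Set W2} (hJ : #J ≤ ℵ₁) : ∃ i : W2, ∀ j ∈ J, j < i := by
  by_contra hcon
  push Not at hcon
  have h1 : IsCofinal J := fun i => hcon i
  have h2 := Order.cof_le h1
  rw [cof_toType] at h2
  have h3 : (ω_ 2 : Ordinal.{0}).cof = ℵ_ 2 := by
    have h4 := cof_omega_add_one (1 : Ordinal.{0})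
    rwa [one_add_one_eq_two] at h4
  rw [h3] at h2
  have h5 : ℵ₁ < (ℵ_ 2 : Cardinal.{0}) := Cardinal.aleph_lt_aleph.2 one_lt_two
  exact absurd (h2.trans hJ) (not_le_of_gt h5)

theorem taskN_of (h1 : TaskN1) (h2 : TaskN2) (h3 : TaskN3) : TaskN := by
  classical
  intro hRC hD
  obtain ⟨I, x, h, hI, hx, hx', hh, hxI⟩ := h3 hD
  refine ⟨I, hI, fun T _ hT hTI => ?_⟩
  refine h2 T hT.1 x h hx hx' hh ?_ ?_ ?_
  · intro i
    have h4 := hxI i
    rw [← hTI] at h4
    exact h4.2.mono fun t ht => ⟨hT.1 t, ht⟩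
  · intro h4
    refine hI.proper ?_
    rw [← hTI]
    exact ⟨subset_rfl, h4.mono (Set.subset_univ _)⟩
  · refine hRC (Hat T) (fun p => (Hat.ht_le p).trans_lt (hT.1 _)) fun S hS => ?_
    -- all ordinals occurring in `S` are bounded
    have hc : #{j : W2 | ∃ p ∈ S, ∃ s < p.nd, p.val s = Sum.inl j} ≤ ℵ₁ := by
      have h5 : {j : W2 | ∃ p ∈ S, ∃ s < p.nd, p.val s = Sum.inl j} ⊆
          ⋃ p : S, {j : W2 | ∃ s < p.1.nd, p.1.val s = Sum.inl j} := by
        rintro j ⟨p, hp, s, hs, hj⟩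
        exact Set.mem_iUnion.2 ⟨⟨p, hp⟩, s, hs, hj⟩
      refine (Cardinal.mk_le_mk_of_subset h5).trans ?_
      refine (Cardinal.mk_iUnion_le _).trans ?_
      have h6 : ∀ p : S, #{j : W2 | ∃ s < p.1.nd, p.1.val s = Sum.inl j} ≤ ℵ₁ := by
        intro p
        have h7 : {j : W2 | ∃ s < p.1.nd, p.1.val s = Sum.inl j}.Countable := by
          have h8 : {j : W2 | ∃ s < p.1.nd, p.1.val s = Sum.inl j} ⊆
              Sum.inl ⁻¹' (p.1.val '' Set.Iic p.1.nd) := by
            rintro j ⟨s, hs, hj⟩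
            exact ⟨s, hs.le, hj⟩
          exact Set.Countable.mono h8
            (((tree_countable hT.1 _).image _).preimage Sum.inl_injective)
        exact (Cardinal.le_aleph0_iff_set_countable.2 h7).trans (Cardinal.aleph0_le_aleph 1)
      calc #S * (⨆ p : S, #{j : W2 | ∃ s < p.1.nd, p.1.val s = Sum.inl j}) ≤ ℵ₁ * ℵ₁ :=
            mul_le_mul' hS (ciSup_le' h6)
        _ = ℵ₁ := Cardinal.mul_eq_self (Cardinal.aleph0_le_aleph 1)
    obtain ⟨i, hi⟩ := W2_bounded hc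
    exact (h1 T hT.1 i).mono fun p hp s hs j hj => hi j ⟨p, hp, s, hs, hj⟩

end Pool.Agent.R595.NST
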