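import Pool.Agent.R595.NST.P2

/-!
# The tree `Nd`: the levels in `X i`
-/

set_option autoImplicit false

namespace Pool.Agent.R595.NST

open Cardinal Ordinal

section Cls
variable {e : Ordinal.{0} → Ordinal.{0} → Ordinal.{0}}

theorem Cl.mono {A B : Set Ordinal.{0}} (h : A ⊆ B) {a : Ordinal.{0}} (ha : Cl e A a) :
    Cl e B a := by
  induction ha with
  | base a h1 => exact Cl.base a (h h1)
  | e i η _ _ ih1 ih2 => exact Cl.e i η ih1 ih2
  | inv i j _ _ ih1 ih2 => exact Cl.inv i j ih1 ih2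
  | succ i _ ih => exact Cl.succ i ih

theorem cls_mono (x : Ordinal.{0} → Ordinal.{0}) {δ δ' : Ordinal.{0}} (h : δ ≤ δ') :
    cls e x δ ⊆ cls e x δ' := fun _ ha =>
  Cl.mono (Set.union_subset_union (Set.Iio_subset_Iio h) (Set.image_mono (Set.Iio_subset_Iio h))) ha

theorem cls_fin (x : Ordinal.{0} → Ordinal.{0}) {δ : Ordinal.{0}} (hδ : Lim δ) {a : Ordinal.{0}}
    (ha : a ∈ cls e x δ) : ∃ ξ < δ, a ∈ cls e x ξ := by
  have ha' : Cl e (Set.Iio δ ∪ x '' Set.Iio δ) a := ha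
  induction ha' with
  | base a h =>
    rcases h with h | ⟨ζ, hζ, rfl⟩
    · exact ⟨Order.succ a, hδ.2 a h, Cl.base a (Or.inl (Order.lt_succ a))⟩
    · exact ⟨Order.succ ζ, hδ.2 ζ hζ, Cl.base _ (Or.inr ⟨ζ, Order.lt_succ ζ, rfl⟩)⟩
  | e i η h1 h2 ih1 ih2 =>
    obtain ⟨ξ, hξ, h3⟩ := ih1 h1
    obtain ⟨ξ', hξ', h4⟩ := ih2 h2
    exact ⟨max ξ ξ', max_lt hξ hξ', Cl.e i η (cls_mono x (le_max_left _ _) h3)
      (cls_mono x (le_max_right _ _) h4)⟩
  | inv i j h1 h2 ih1 ih2 =>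
    obtain ⟨ξ, hξ, h3⟩ := ih1 h1
    obtain ⟨ξ', hξ', h4⟩ := ih2 h2
    exact ⟨max ξ ξ', max_lt hξ hξ', Cl.inv i j (cls_mono x (le_max_left _ _) h3)
      (cls_mono x (le_max_right _ _) h4)⟩
  | succ i h1 ih =>
    obtain ⟨ξ, hξ, h3⟩ := ih h1
    exact ⟨ξ, hξ, Cl.succ i h3⟩

theorem cls_countable (x : Ordinal.{0} → Ordinal.{0}) {δ : Ordinal.{0}} (hδ : δ < ω₁) :
    (cls e x δ).Countable := by
  let S : Set Ordinal.{0} := Set.Iio δ ∪ x '' Set.Iio δ
  have hS : S.Countable := (countable_Iio hδ).union ((countable_Iio hδ).image _)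
  let L : ℕ → Set Ordinal.{0} := fun n => Nat.rec S
    (fun _ A => A ∪ (((fun q : Ordinal.{0} × Ordinal.{0} => e q.1 q.2) '' (A ×ˢ A)) ∪
      (((fun q : Ordinal.{0} × Ordinal.{0} => inv e q.1 q.2) '' (A ×ˢ A)) ∪
        Order.succ '' A))) n
  have hL : ∀ n, L (n + 1) = L n ∪ (((fun q : Ordinal.{0} × Ordinal.{0} => e q.1 q.2) ''
      (L n ×ˢ L n)) ∪ (((fun q : Ordinal.{0} × Ordinal.{0} => inv e q.1 q.2) '' (L n ×ˢ L n)) ∪
        Order.succ '' L n)) := fun n => rfl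
  have hc : ∀ n, (L n).Countable := by
    intro n
    induction n with
    | zero => exact hS
    | succ n ih =>
      rw [hL]
      exact ih.union (((ih.prod ih).image _).union (((ih.prod ih).image _).union (ih.image _)))
  have hm : Monotone L := monotone_nat_of_le_succ fun n => by
    rw [hL]
    exact Set.subset_union_left
  have hsub : cls e x δ ⊆ ⋃ n, L n := by
    intro a ha
    have ha' : Cl e (Set.Iio δ ∪ x '' Set.Iio δ) a := ha
    induction ha' with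
    | base a h => exact Set.mem_iUnion.2 ⟨0, h⟩
    | e i η h1 h2 ih1 ih2 =>
      obtain ⟨n, hn⟩ := Set.mem_iUnion.1 (ih1 h1)
      obtain ⟨m, hm'⟩ := Set.mem_iUnion.1 (ih2 h2)
      refine Set.mem_iUnion.2 ⟨max n m + 1, ?_⟩
      rw [hL]
      exact Or.inr (Or.inl ⟨(i, η), ⟨hm (le_max_left _ _) hn, hm (le_max_right _ _) hm'⟩, rfl⟩)
    | inv i j h1 h2 ih1 ih2 =>
      obtain ⟨n, hn⟩ := Set.mem_iUnion.1 (ih1 h1)
      obtain ⟨m, hm'⟩ := Set.mem_iUnion.1 (ih2 h2)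
      refine Set.mem_iUnion.2 ⟨max n m + 1, ?_⟩
      rw [hL]
      exact Or.inr (Or.inr (Or.inl ⟨(i, j), ⟨hm (le_max_left _ _) hn,
        hm (le_max_right _ _) hm'⟩, rfl⟩))
    | succ i h1 ih =>
      obtain ⟨n, hn⟩ := Set.mem_iUnion.1 (ih h1)
      refine Set.mem_iUnion.2 ⟨n + 1, ?_⟩
      rw [hL]
      exact Or.inr (Or.inr (Or.inr ⟨i, hn, rfl⟩))
  exact (Set.countable_iUnion hc).mono hsub

theorem cls_lt (he : GoodE e) (x : Ordinal.{0} → Ordinal.{0}) (hx : ∀ ξ, x ξ < ω_ 2)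
    {δ : Ordinal.{0}} (hδ : δ < ω₁) : ∀ a ∈ cls e x δ, a < ω_ 2 := by
  intro a ha
  have ha' : Cl e (Set.Iio δ ∪ x '' Set.Iio δ) a := ha
  induction ha' with
  | base a h =>
    rcases h with h | ⟨ζ, hζ, rfl⟩
    · exact (lt_trans h hδ).trans omega1_lt_omega2
    · exact hx ζ
  | e i η _ _ _ _ => exact he.lt i η
  | inv i j _ _ _ _ => exact (inv_lt e i j).trans omega1_lt_omega2
  | succ i h1 ih => exact succ_lt_omega (ih h1)

end Cls

/-- a countable cofinal subset -/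
theorem cofinal_index {e : Ordinal.{0} → Ordinal.{0} → Ordinal.{0}} (he : GoodE e)
    {ε : Ordinal.{0}} (hε2 : ε < ω_ 2) (hc : ε.cof = ℵ₀) :
    ∃ ι < ω₁, ∀ β < ε, ∃ η < ι, β < e ε η := by
  have h1 : Order.cof ε.ToType = ℵ₀ := by rw [cof_toType, hc]
  obtain ⟨s, hs, hs'⟩ := Order.exists_cof_eq ε.ToType
  rw [h1] at hs'
  have h2 : s.Countable := Cardinal.le_aleph0_iff_set_countable.1 hs'.le
  obtain ⟨ι, h3, h4⟩ := bdd1 ((fun x : ε.ToType => inv e ε (ToType.mk.symm x).1) '' s)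
    (h2.image _) (by
      rintro _ ⟨x, hx, rfl⟩
      exact inv_lt e _ _)
  refine ⟨ι, h3, fun β hβ => ?_⟩
  have hεs : Order.succ β < ε := by
    have h5 : Order.IsSuccLimit ε := by
      rw [← Ordinal.one_lt_cof_iff, hc]
      exact Cardinal.one_lt_aleph0
    exact h5.succ_lt hβ
  obtain ⟨x, hx, hx'⟩ := hs (ToType.mk ⟨Order.succ β, hεs⟩)
  have h6 : (ToType.mk.symm x).1 < ε := (ToType.mk.symm x).2
  have h7 : Order.succ β ≤ (ToType.mk.symm x).1 := by
    have h8 := ToType.mk.symm.monotone hx'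
    rw [OrderIso.symm_apply_apply] at h8
    exact h8
  refine ⟨inv e ε (ToType.mk.symm x).1, h4 _ ⟨x, hx, rfl⟩, ?_⟩
  rw [(inv_spec he hε2 h6).2]
  exact (Order.lt_succ β).trans_le h7

section
variable {e : Ordinal.{0} → Ordinal.{0} → Ordinal.{0}} {E : Set Ordinal.{0}}
  {X : Ordinal.{0} → Set Ordinal.{0}}

/-- nodes whose length is bounded in terms of an element of the closure -/
theorem nsup_of_cls (B : Set (Nd e E X)) (hlim : ∀ p ∈ B, Lim p.len)
    (φ : Ordinal.{0} → Ordinal.{0}) (hφ : ∀ a, φ a < ω₁)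
    (h : ∀ p ∈ B, ∃ a ∈ cls e p.val p.len, p.len ≤ φ a) : NSup B := by
  classical
  have h1 : ∀ p : Nd e E X, ∃ q : Nd e E X, p ∈ B → q < p ∧
      ∃ a ∈ cls e q.val q.len, p.len ≤ φ a := by
    intro p
    by_cases hp : p ∈ B
    · obtain ⟨a, ha, ha'⟩ := h p hp
      obtain ⟨ξ, hξ, hξ'⟩ := cls_fin p.val (hlim p hp) ha
      refine ⟨p.cut ξ hξ.le, fun _ => ⟨p.cut_lt ξ hξ, a, ?_, ha'⟩⟩
      have h2 : cls e (p.cut ξ hξ.le).val (p.cut ξ hξ.le).len = cls e p.val ξ :=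
        cls_congr _ _ _ fun η hη => (p.cut_le ξ hξ.le).2 η hη
      rw [h2]
      exact hξ'
    · exact ⟨p, fun h => absurd h hp⟩
  choose f hf using h1
  refine NSup.of_bounded Nd.len (fun _ _ => Nd.len_strict) f (fun p hp _ => (hf p hp).1) ?_
  intro s
  obtain ⟨β, hβ, hβ'⟩ := bdd1 (φ '' cls e s.val s.len) ((cls_countable s.val s.len_lt).image _)
    (by rintro _ ⟨a, _, rfl⟩; exact hφ a)
  refine ⟨β, hβ, fun p hp hps => ?_⟩
  obtain ⟨_, a, ha, ha'⟩ := hf p hp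
  rw [hps] at ha
  exact ha'.trans (hβ' _ ⟨a, ha, rfl⟩).le

/-- nodes whose length is outside a club -/
theorem nsup_of_club (g : Ordinal.{0} → Ordinal.{0}) (hg : ∀ ξ < ω₁, g ξ < ω₁) :
    NSup {p : Nd e E X | p.len ∉ clPts g ω₁} := by
  classical
  have h1 : ∀ p : Nd e E X, ∃ q : Nd e E X, p.len ∉ clPts g ω₁ → p ≠ ⊥ → q < p ∧
      p.len ≤ g q.len := by
    intro p
    by_cases hp : p.len ∉ clPts g ω₁ ∧ p ≠ ⊥
    · have h0 : 0 < p.len := by
        rw [pos_iff_ne_zero]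
        intro h
        apply hp.2
        refine Nd.eq_of_len (r := p) le_rfl bot_le ?_
        rw [h]
        rfl
      have h2 : ∃ ξ < p.len, p.len ≤ g ξ := by
        by_contra hcon
        push Not at hcon
        exact hp.1 ⟨p.len_lt, h0, hcon⟩
      obtain ⟨ξ, hξ, h3⟩ := h2
      exact ⟨p.cut ξ hξ.le, fun _ _ => ⟨p.cut_lt ξ hξ, h3⟩⟩
    · exact ⟨p, fun h2 h3 => absurd ⟨h2, h3⟩ hp⟩
  choose f hf using h1
  refine (NSup.of_special (special_singleton (⊥ : Nd e E X))).union (C := {p | p.len ∉ clPts g ω₁ ∧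
    p ≠ ⊥}) ?_ |>.mono ?_
  · refine NSup.of_bounded Nd.len (fun _ _ => Nd.len_strict) f (fun p hp h => (hf p hp.1 h).1) ?_
    intro s
    refine ⟨g s.len, hg _ s.len_lt, fun p hp hps => ?_⟩
    rw [← hps]
    exact (hf p hp.1 hp.2).2
  · intro p hp
    by_cases h : p = ⊥
    · exact Or.inl h
    · exact Or.inr ⟨hp, h⟩

/-- closed nodes whose closure omits `i` -/
def Om (e : Ordinal.{0} → Ordinal.{0} → Ordinal.{0}) (E : Set Ordinal.{0})
    (X : Ordinal.{0} → Set Ordinal.{0}) (i : Ordinal.{0}) : Set (Nd e E X) :=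
  {p | ClosedPt e p.val p.len ∧ i ∉ cls e p.val p.len}

/-- the club for case (d2) -/
theorem exists_club (he : GoodE e) (hE : NonReflecting E) {i : Ordinal.{0}} (hi : i < ω_ 2) :
    ∃ g : Ordinal.{0} → Ordinal.{0}, (∀ ξ < ω₁, g ξ < ω₁) ∧ ∀ δ ∈ clPts g ω₁,
      ¬ ∃ ε ∈ E, ε < i ∧ (∀ η < δ, e i η < ε) ∧ ∀ β < ε, ∃ η < δ, β < e i η := by
  classical
  rcases Ordinal.zero_or_succ_or_isSuccLimit i with rfl | ⟨j, rfl⟩ | hlim
  · refine ⟨fun _ => 0, fun _ _ => Ordinal.omega_pos 1, ?_⟩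
    rintro δ _ ⟨ε, _, h, _⟩
    exact not_lt_zero h
  · refine ⟨fun _ => inv e (Order.succ j) j, fun _ _ => inv_lt e _ _, ?_⟩
    rintro δ hδ ⟨ε, _, h1, h2, _⟩
    have h3 := h2 _ (hδ.2.2 0 hδ.2.1)
    rw [(inv_spec he hi (Order.lt_succ j)).2] at h3
    exact absurd (Order.lt_succ_iff.1 h1) (not_le_of_gt h3)
  · have h0 : 0 < i := hlim.bot_lt
    have hc1 : ℵ₀ ≤ i.cof := by
      rw [Ordinal.aleph0_le_cof_iff, Ordinal.one_lt_cof_iff]
      exact hlim
    have hc2 : i.cof ≤ ℵ₁ := by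
      refine (Ordinal.cof_le_card i).trans ?_
      have h2 : i.card < ℵ_ 2 := by
        rw [Cardinal.lt_ord.symm, Cardinal.ord_aleph]
        exact hi
      have h3 : (ℵ_ 2 : Cardinal.{0}) = Order.succ ℵ₁ := by
        rw [Cardinal.succ_aleph, one_add_one_eq_two]
      rwa [h3, Order.lt_succ_iff] at h2
    rcases hc1.eq_or_lt with hc | hc
    · obtain ⟨ι, hι, hι'⟩ := cofinal_index he hi hc.symm
      refine ⟨fun _ => ι, fun _ _ => hι, ?_⟩
      rintro δ hδ ⟨ε, _, h1, h2, _⟩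
      obtain ⟨η, h3, h4⟩ := hι' ε h1
      exact lt_asymm h4 (h2 η (h3.trans (hδ.2.2 0 hδ.2.1)))
    · have hc' : i.cof = ℵ₁ := by
        refine le_antisymm hc2 ?_
        rw [← Cardinal.succ_aleph0]
        exact Order.succ_le_of_lt hc
      have h4 := hE.2.2.2 i hi hc'
      unfold StatIn at h4
      push Not at h4
      obtain ⟨C, hC, hCE⟩ := h4
      have h5 : ∀ η : Ordinal.{0}, ∃ γ, η < ω₁ → γ ∈ C ∧ e i η < γ := by
        intro η
        by_cases hη : η < ω₁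
        · obtain ⟨γ, hγ⟩ := hC.2.1 (e i η) (e_lt he hi h0 hη)
          exact ⟨γ, fun _ => hγ⟩
        · exact ⟨0, fun h => absurd h hη⟩
      choose γ hγ using h5
      refine ⟨fun η => inv e i (Order.succ (γ η)), fun _ _ => inv_lt e _ _, ?_⟩
      rintro δ hδ ⟨ε, hεE, h1, h2, h3⟩
      have hε0 : 0 < ε := (zero_le).trans_lt (h2 0 hδ.2.1)
      have h6 : ε ∈ C := by
        refine hC.2.2 ε h1 hε0 fun β hβ => ?_
        obtain ⟨η, hη, h7⟩ := h3 β hβ
        have h8 := hγ η (hη.trans hδ.1)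
        refine ⟨γ η, h8.1, h7.trans h8.2, ?_⟩
        have h9 := h2 _ (hδ.2.2 η hη)
        have h10 : Order.succ (γ η) < i := hlim.succ_lt (hC.1 h8.1)
        rw [(inv_spec he hi h10).2] at h9
        exact (Order.lt_succ _).trans h9
      have h7 : ε ∈ E ∩ C := ⟨hεE, h6⟩
      rw [hCE] at h7
      exact h7

/-- the main claim -/
theorem nsup_om (he : GoodE e) (hE : NonReflecting E) :
    ∀ i, i < ω_ 2 → NSup (Om e E X i) := by
  intro i
  induction i using WellFoundedLT.induction with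
  | _ i ih =>
    intro hi
    classical
    -- the pieces
    have ha : NSup {p : Nd e E X | p ∈ Om e E X i ∧ ∃ i' ∈ cls e p.val p.len, i < i'} := by
      refine nsup_of_cls _ (fun p hp => hp.1.1.1) (fun a => inv e a i) (fun a => inv_lt e _ _) ?_
      rintro p ⟨⟨⟨hlim, hcl⟩, hpi⟩, i', hi', hii⟩
      refine ⟨i', hi', ?_⟩
      by_contra hcon
      push Not at hcon
      apply hpi
      have h1 : inv e i' i ∈ cls e p.val p.len := Cl.base _ (Or.inl hcon)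
      have h2 : e i' (inv e i' i) ∈ cls e p.val p.len := Cl.e _ _ hi' h1
      rwa [(inv_spec he (cls_lt he p.val p.val_lt p.len_lt i' hi') hii).2] at h2
    have hc : NSup {p : Nd e E X | p ∈ Om e E X i ∧ ∃ j ∈ cls e p.val p.len,
        p.len ≤ inv e i j} := by
      refine nsup_of_cls _ (fun p hp => hp.1.1.1) (fun a => inv e i a) (fun a => inv_lt e _ _) ?_
      rintro p ⟨_, j, hj, h1⟩
      exact ⟨j, hj, h1⟩
    have hb : NSup {p : Nd e E X | ∃ s < p, ∃ η ∈ Set.Iic s.len,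
        p ∈ {p : Nd e E X | 0 < i ∧ η < ω₁ ∧ p ∈ Om e E X (e i η)}} := by
      refine NSup.diag Nd.chain Nd.countable_Iic
        (fun η => {p : Nd e E X | 0 < i ∧ η < ω₁ ∧ p ∈ Om e E X (e i η)}) ?_
        (fun s => Set.Iic s.len) ?_ ?_
      · intro η
        by_cases h : 0 < i ∧ η < ω₁
        · have h1 := e_lt he hi h.1 h.2
          exact (ih _ h1 (h1.trans hi)).mono fun p hp => hp.2.2
        · exact (NSup.of_special (special_singleton (⊥ : Nd e E X))).mono fun p hp =>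
            absurd ⟨hp.1, hp.2.1⟩ h
      · intro s t hst
        exact Set.Iic_subset_Iic.2 hst.1
      · intro s
        exact countable_Iic s.len_lt
    have hd1 : NSup {p : Nd e E X | ClosedPt e p.val p.len ∧ (∀ j ∈ cls e p.val p.len, j < i) ∧
        ∀ β < i, ∃ j ∈ cls e p.val p.len, β < j} := by
      refine NSup.of_special (special_of_isAntichain ?_)
      rintro p ⟨hp1, hp2, hp3⟩ q ⟨hq1, hq2, hq3⟩ hne hle
      have h1 : p < q := lt_of_le_of_ne hle hne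
      have h2 := Nd.len_strict h1
      have h3 : cls e q.val p.len = cls e p.val p.len := cls_congr _ _ _ fun ξ hξ =>
        (h1.le.2 ξ hξ).symm
      have h4 : ClosedPt e q.val p.len := (closedPt_congr _ _ _ fun ξ hξ => h1.le.2 ξ hξ).1 hp1
      have h5 := (q.ok p.len h2.le h4).2.2 h2
      rw [h3] at h5
      have h6 : q.val p.len < i := hq2 _ (Cl.base _ (Or.inr ⟨p.len, h2, rfl⟩))
      obtain ⟨j, hj, hj'⟩ := hp3 _ h6
      exact lt_asymm hj' (h5 j hj)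
    obtain ⟨g, hg, hg'⟩ := exists_club he hE hi
    have hd2 := nsup_of_club (e := e) (E := E) (X := X) g hg
    refine ((ha.union hc).union ((hb.union hd1).union hd2)).mono ?_
    rintro p ⟨⟨hlim, hcl⟩, hpi⟩
    by_cases h1 : ∃ i' ∈ cls e p.val p.len, i < i'
    · exact Or.inl (Or.inl ⟨⟨⟨hlim, hcl⟩, hpi⟩, h1⟩)
    push Not at h1
    have h1' : ∀ j ∈ cls e p.val p.len, j < i := fun j hj =>
      lt_of_le_of_ne (h1 j hj) fun h => hpi (h ▸ hj)
    have h0 : 0 < i := h1' 0 (Cl.base _ (Or.inl hlim.1))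
    by_cases h2 : ∃ j ∈ cls e p.val p.len, p.len ≤ inv e i j
    · exact Or.inl (Or.inr ⟨⟨⟨hlim, hcl⟩, hpi⟩, h2⟩)
    push Not at h2
    by_cases h3 : ∃ η < p.len, e i η ∉ cls e p.val p.len
    · obtain ⟨η, hη, h4⟩ := h3
      exact Or.inr (Or.inl (Or.inl ⟨p.cut η hη.le, p.cut_lt η hη, η,
        (show η ≤ (p.cut η hη.le).len from le_rfl), h0,
        hη.trans p.len_lt, ⟨hlim, hcl⟩, h4⟩))
    push Not at h3
    obtain ⟨⟨ε, hεE, h4, h5⟩, -, -⟩ := p.ok p.len le_rfl ⟨hlim, hcl⟩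
    have hεi : ε ≤ i := by
      by_contra hcon
      push Not at hcon
      obtain ⟨j, hj, hj'⟩ := h5 i hcon
      exact lt_asymm hj' (h1' j hj)
    rcases hεi.eq_or_lt with rfl | hεi
    · exact Or.inr (Or.inl (Or.inr ⟨⟨hlim, hcl⟩, h1', h5⟩))
    · refine Or.inr (Or.inr fun h6 => hg' _ h6 ⟨ε, hεE, hεi, fun η hη => h4 _ (h3 η hη), ?_⟩)
      intro β hβ
      obtain ⟨j, hj, hj'⟩ := h5 β hβ
      refine ⟨inv e i j, h2 j hj, ?_⟩
      rw [(inv_spec he hi (h1' j hj)).2]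
      exact hj'

end

theorem taskP1 : TaskP1 := by
  classical
  intro e E X he hE i hi
  have h1 := nsup_of_club (e := e) (E := E) (X := X) Order.succ fun ξ hξ => succ_lt_omega hξ
  have h2 : NSup {p : Nd e E X | Lim p.len ∧ ∃ η ∈ cls e p.val p.len, η < ω₁ ∧ p.len ≤ η} := by
    refine nsup_of_cls _ (fun p hp => hp.1) (fun a => if a < ω₁ then a else 0) ?_ ?_
    · intro a
      by_cases h : a < ω₁
      · rw [if_pos h]
        exact h
      · rw [if_neg h]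
        exact Ordinal.omega_pos 1
    · rintro p ⟨_, η, h3, h4, h5⟩
      exact ⟨η, h3, by rw [if_pos h4]; exact h5⟩
  refine ((h1.union h2).union (nsup_om he hE i hi)).mono ?_
  intro p hp
  by_cases h3 : p.len ∈ clPts Order.succ ω₁
  · have hlim : Lim p.len := ⟨h3.2.1, h3.2.2⟩
    by_cases h4 : ∃ η ∈ cls e p.val p.len, η < ω₁ ∧ p.len ≤ η
    · exact Or.inl (Or.inr ⟨hlim, h4⟩)
    · push Not at h4
      have hcl : ClosedPt e p.val p.len := ⟨hlim, h4⟩
      exact Or.inr ⟨hcl, fun h5 => (p.ok p.len le_rfl hcl).2.1 i h5 hp⟩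
  · exact Or.inl (Or.inl h3)

end Pool.Agent.R595.NST
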