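import Pool.Agent.R595.NST.Club

/-!
# The closure lemma
-/

set_option autoImplicit false

namespace Pool.Agent.R595.NST

open Cardinal Ordinal

theorem inv_spec {e : Ordinal.{0} → Ordinal.{0} → Ordinal.{0}} (he : GoodE e)
    {i j : Ordinal.{0}} (hi : i < ω_ 2) (hj : j < i) :
    inv e i j < ω₁ ∧ e i (inv e i j) = j := by
  have h1 : j ∈ e i '' Set.Iio ω₁ := by
    rw [he.img i ((zero_le).trans_lt hj) hi]
    exact hj
  obtain ⟨η, hη, h2⟩ := h1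
  have h3 : {η | η < ω₁ ∧ e i η = j}.Nonempty := ⟨η, hη, h2⟩
  exact csInf_mem h3

theorem inv_lt (e : Ordinal.{0} → Ordinal.{0} → Ordinal.{0}) (i j : Ordinal.{0}) :
    inv e i j < ω₁ := by
  unfold inv
  rcases Set.eq_empty_or_nonempty {η | η < ω₁ ∧ e i η = j} with h | h
  · rw [h, Ordinal.sInf_empty]
    exact Ordinal.omega_pos 1
  · exact (csInf_mem h).1

theorem e_lt {e : Ordinal.{0} → Ordinal.{0} → Ordinal.{0}} (he : GoodE e)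
    {i η : Ordinal.{0}} (hi : i < ω_ 2) (h0 : 0 < i) (hη : η < ω₁) : e i η < i := by
  have h1 : e i η ∈ e i '' Set.Iio ω₁ := ⟨η, hη, rfl⟩
  rw [he.img i h0 hi] at h1
  exact h1

theorem omega1_lt_omega2 : (ω₁ : Ordinal.{0}) < ω_ 2 := Ordinal.omega_lt_omega.2 one_lt_two

/-- bound for a family of ternary functions -/
theorem bound3 (κ : Ordinal.{0}) (hκ : ∀ s : Set Ordinal.{0}, (∃ α < κ, ∃ f : ℕ →
    Ordinal.{0} → Ordinal.{0} → Ordinal.{0} → Ordinal.{0}, s = {x | ∃ n, ∃ a ≤ α, ∃ b ≤ α,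
    ∃ c ≤ α, x = f n a b c}) → (∀ i ∈ s, i < κ) → ∃ β < κ, ∀ i ∈ s, i < β)
    (f : ℕ → Ordinal.{0} → Ordinal.{0} → Ordinal.{0} → Ordinal.{0})
    (hf : ∀ n, ∀ a < κ, ∀ b < κ, ∀ c < κ, f n a b c < κ) :
    ∃ g : Ordinal.{0} → Ordinal.{0}, (∀ ξ < κ, g ξ < κ) ∧
      ∀ ξ < κ, ∀ n, ∀ a ≤ ξ, ∀ b ≤ ξ, ∀ c ≤ ξ, f n a b c < g ξ := by
  classical
  have h1 : ∀ ξ : Ordinal.{0}, ∃ β, ξ < κ → β < κ ∧
      ∀ n, ∀ a ≤ ξ, ∀ b ≤ ξ, ∀ c ≤ ξ, f n a b c < β := by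
    intro ξ
    by_cases h : ξ < κ
    · obtain ⟨β, h2, h3⟩ := hκ {x | ∃ n, ∃ a ≤ ξ, ∃ b ≤ ξ, ∃ c ≤ ξ, x = f n a b c} ⟨ξ, h, f, rfl⟩
        (by
          rintro _ ⟨n, a, ha, b, hb, c, hc, rfl⟩
          exact hf n a (ha.trans_lt h) b (hb.trans_lt h) c (hc.trans_lt h))
      exact ⟨β, fun _ => ⟨h2, fun n a ha b hb c hc => h3 _ ⟨n, a, ha, b, hb, c, hc, rfl⟩⟩⟩
    · exact ⟨0, fun h' => absurd h' h⟩
  choose g hg using h1
  exact ⟨g, fun ξ hξ => (hg ξ hξ).1, fun ξ hξ => (hg ξ hξ).2⟩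

theorem triple_eq (α : Ordinal.{0})
    (f : ℕ → Ordinal.{0} → Ordinal.{0} → Ordinal.{0} → Ordinal.{0}) :
    {x | ∃ n, ∃ a ≤ α, ∃ b ≤ α, ∃ c ≤ α, x = f n a b c} =
      Set.range fun q : ℕ × Set.Iic α × Set.Iic α × Set.Iic α => f q.1 q.2.1 q.2.2.1 q.2.2.2 := by
  ext x
  constructor
  · rintro ⟨n, a, ha, b, hb, c, hc, rfl⟩
    exact ⟨(n, ⟨a, ha⟩, ⟨b, hb⟩, ⟨c, hc⟩), rfl⟩
  · rintro ⟨⟨n, a, b, c⟩, rfl⟩
    exact ⟨n, a, a.2, b, b.2, c, c.2, rfl⟩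

theorem bound3_1 (f : ℕ → Ordinal.{0} → Ordinal.{0} → Ordinal.{0} → Ordinal.{0})
    (hf : ∀ n, ∀ a < ω₁, ∀ b < ω₁, ∀ c < ω₁, f n a b c < ω₁) :
    ∃ g : Ordinal.{0} → Ordinal.{0}, (∀ ξ < ω₁, g ξ < ω₁) ∧
      ∀ ξ < ω₁, ∀ n, ∀ a ≤ ξ, ∀ b ≤ ξ, ∀ c ≤ ξ, f n a b c < g ξ := by
  refine bound3 ω₁ ?_ f hf
  rintro s ⟨α, hα, f, rfl⟩ h
  refine bdd1 _ ?_ h
  rw [triple_eq]
  have : Countable (Set.Iic α) := countable_Iic hα
  exact Set.countable_range _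

theorem bound3_2 (f : ℕ → Ordinal.{0} → Ordinal.{0} → Ordinal.{0} → Ordinal.{0})
    (hf : ∀ n, ∀ a < ω_ 2, ∀ b < ω_ 2, ∀ c < ω_ 2, f n a b c < ω_ 2) :
    ∃ g : Ordinal.{0} → Ordinal.{0}, (∀ ξ < ω_ 2, g ξ < ω_ 2) ∧
      ∀ ξ < ω_ 2, ∀ n, ∀ a ≤ ξ, ∀ b ≤ ξ, ∀ c ≤ ξ, f n a b c < g ξ := by
  refine bound3 (ω_ 2) ?_ f hf
  rintro s ⟨α, hα, f, rfl⟩ h
  refine bdd2 _ ?_ h
  rw [triple_eq]
  have h1 : #(Set.Iic α) ≤ ℵ₁ := by
    have h2 : Set.Iic α = Set.Iio (Order.succ α) := by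
      ext x
      simp
    rw [h2]
    exact mk_Iio_le_aleph1 (succ_lt_omega hα)
  refine Cardinal.mk_range_le.trans ?_
  rw [Cardinal.mk_prod, Cardinal.mk_prod, Cardinal.mk_prod]
  simp only [Cardinal.lift_id, Cardinal.mk_nat, Cardinal.lift_aleph0, Cardinal.lift_uzero]
  have h3 : (ℵ₀ : Cardinal.{1}) ≤ ℵ₁ := Cardinal.aleph0_le_aleph 1
  calc ℵ₀ * (#(Set.Iic α) * (#(Set.Iic α) * #(Set.Iic α))) ≤ ℵ₁ * (ℵ₁ * (ℵ₁ * ℵ₁)) :=
        mul_le_mul' h3 (mul_le_mul' h1 (mul_le_mul' h1 h1))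
    _ = ℵ₁ := by rw [Cardinal.mul_eq_self h3, Cardinal.mul_eq_self h3, Cardinal.mul_eq_self h3]

theorem taskP2 : TaskP2 := by
  classical
  intro F E X I Y hF hE hEc hEs hI hX hY hYI
  obtain ⟨e, he⟩ := exists_goodE
  obtain ⟨g2, hg2, hg2'⟩ := bound3_2 (fun n a b c => match n with
    | 0 => ω₁
    | (n + 1) => F n a b c) (by
      intro n a ha b hb c hc
      cases n with
      | zero => exact omega1_lt_omega2
      | succ n => exact hF n a ha b hb c hc)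
  obtain ⟨ε, hεE, hε⟩ := hEs _ (club_clPts regO2 g2 hg2)
  obtain ⟨hε2, hε0, hεc⟩ := hε
  have hε1 : ω₁ < ε := (hg2' 0 regO2.pos 0 0 le_rfl 0 le_rfl 0 le_rfl).trans (hεc 0 hε0)
  have hεF : ∀ n, ∀ a < ε, ∀ b < ε, ∀ c < ε, F n a b c < ε := by
    intro n a ha b hb c hc
    have h1 : max a (max b c) < ε := max_lt ha (max_lt hb hc)
    exact (hg2' _ (h1.trans hε2) (n + 1) a (le_max_left _ _) b
      ((le_max_left _ _).trans (le_max_right _ _)) c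
      ((le_max_right _ _).trans (le_max_right _ _))).trans (hεc _ h1)
  -- a countable cofinal subset of `ε`
  obtain ⟨ι, hι, hι'⟩ : ∃ ι < ω₁, ∀ β < ε, ∃ η < ι, β < e ε η := by
    have h1 : Order.cof ε.ToType = ℵ₀ := by rw [cof_toType, hEc ε hεE]
    obtain ⟨s, hs, hs'⟩ := Order.exists_cof_eq ε.ToType
    rw [h1] at hs'
    have h2 : s.Countable := Cardinal.le_aleph0_iff_set_countable.1 hs'.le
    obtain ⟨ι, h3, h4⟩ := bdd1 ((fun x : ε.ToType => inv e ε (ToType.mk.symm x).1) '' s)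
      (h2.image _) (by
        rintro _ ⟨x, hx, rfl⟩
        exact inv_lt e _ _)
    refine ⟨ι, h3, fun β hβ => ?_⟩
    have hεs : Order.succ β < ε := by
      have h5 : Order.IsSuccLimit ε := by
        rw [← Ordinal.aleph0_le_cof, hEc ε hεE]
      exact h5.succ_lt hβ
    obtain ⟨x, hx, hx'⟩ := hs (ToType.mk ⟨Order.succ β, hεs⟩)
    have h6 : (ToType.mk.symm x).1 < ε := (ToType.mk.symm x).2
    have h7 : Order.succ β ≤ (ToType.mk.symm x).1 := by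
      have h8 := ToType.mk.symm.monotone hx'
      rw [OrderIso.symm_apply_apply] at h8
      exact h8
    refine ⟨inv e ε (ToType.mk.symm x).1, h4 _ ⟨x, hx, rfl⟩, ?_⟩
    rw [(inv_spec he hε2 h6).2]
    exact (Order.lt_succ β).trans_le h7
  -- the closure function on `ω₁`
  obtain ⟨g1, hg1, hg1'⟩ := bound3_1 (fun n a b c => match n with
    | 0 => ι
    | 1 => if e ε a < ω₁ then e ε a else 0
    | 2 => inv e ε a
    | 3 => Order.succ a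
    | (n + 4) => inv e ε (F n (e ε a) (e ε b) (e ε c))) (by
      intro n a ha b hb c hc
      match n with
      | 0 => exact hι
      | 1 =>
        dsimp only
        split
        · assumption
        · exact Ordinal.omega_pos 1
      | 2 => exact inv_lt e _ _
      | 3 => exact succ_lt_omega ha
      | (n + 4) => exact inv_lt e _ _)
  have hD : ∃ δ ∈ Y, δ ∈ clPts g1 ω₁ ∧ ∀ η < δ, δ ∉ X (e ε η) := by
    by_contra hcon
    push Not at hcon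
    apply hYI
    have h1 := hI.diag (fun α => X (e ε α)) fun α hα =>
      hX _ ((e_lt he hε2 hε0 hα).trans hε2)
    refine hI.down _ (hI.union _ (hI.compl_clPts g1 hg1) _ h1) _ ?_
    intro δ hδ
    by_cases h2 : δ ∈ clPts g1 ω₁
    · obtain ⟨η, h3, h4⟩ := hcon δ hδ h2
      exact Or.inr ⟨hY hδ, η, h3, h4⟩
    · exact Or.inl ⟨hY hδ, h2⟩
  obtain ⟨δ, hδY, ⟨hδ1, hδ0, hδc⟩, hδX⟩ := hD
  have hcl : ∀ n, ∀ a < δ, ∀ b < δ, ∀ c < δ, (match n with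
    | 0 => ι
    | 1 => if e ε a < ω₁ then e ε a else 0
    | 2 => inv e ε a
    | 3 => Order.succ a
    | (n + 4) => inv e ε (F n (e ε a) (e ε b) (e ε c)) : Ordinal.{0}) < δ := by
    intro n a ha b hb c hc
    have h1 : max a (max b c) < δ := max_lt ha (max_lt hb hc)
    exact (hg1' _ (h1.trans hδ1) n a (le_max_left _ _) b
      ((le_max_left _ _).trans (le_max_right _ _)) c
      ((le_max_right _ _).trans (le_max_right _ _))).trans (hδc _ h1)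
  refine ⟨ε, hεE, δ, hδY, e ε '' Set.Iio δ, ?_, (countable_Iio hδ1).image _, ?_, ?_, ?_, ?_, ?_⟩
  · rintro _ ⟨η, hη, rfl⟩
    exact e_lt he hε2 hε0 (lt_trans hη hδ1)
  · rintro n _ ⟨a, ha, rfl⟩ _ ⟨b, hb, rfl⟩ _ ⟨c, hc, rfl⟩
    have h1 := hcl (n + 4) a ha b hb c hc
    refine ⟨_, h1, ?_⟩
    exact (inv_spec he hε2 (hεF n _ (e_lt he hε2 hε0 (lt_trans ha hδ1)) _
      (e_lt he hε2 hε0 (lt_trans hb hδ1)) _ (e_lt he hε2 hε0 (lt_trans hc hδ1)))).2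
  · exact ⟨hδ0, fun ξ hξ => hcl 3 ξ hξ ξ hξ ξ hξ⟩
  · ext ξ
    constructor
    · rintro ⟨⟨η, hη, rfl⟩, h2⟩
      have h3 := hcl 1 η hη η hη η hη
      have h2' : e ε η < ω₁ := h2
      dsimp only at h3
      rw [if_pos h2'] at h3
      exact h3
    · intro hξ
      have hξ' : ξ < δ := hξ
      refine ⟨⟨inv e ε ξ, hcl 2 ξ hξ ξ hξ ξ hξ, ?_⟩, hξ'.trans hδ1⟩
      exact (inv_spec he hε2 ((hξ'.trans hδ1).trans hε1)).2
  · intro β hβ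
    obtain ⟨η, h1, h2⟩ := hι' β hβ
    have h3 : ι < δ := hcl 0 0 hδ0 0 hδ0 0 hδ0
    exact ⟨e ε η, ⟨η, h1.trans h3, rfl⟩, h2⟩
  · rintro _ ⟨η, hη, rfl⟩
    exact hδX η hη

end Pool.Agent.R595.NST
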