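import Pool.Agent.R595.NST.P1

/-!
# The tree `Nd`: positive levels
-/

set_option autoImplicit false

namespace Pool.Agent.R595.NST

open Cardinal Ordinal

section
variable {e : Ordinal.{0} → Ordinal.{0} → Ordinal.{0}} {E : Set Ordinal.{0}}
  {X : Ordinal.{0} → Set Ordinal.{0}}

/-- extension of nodes -/
theorem Nd.exists_ext (he : GoodE e) (p : Nd e E X) {j β : Ordinal.{0}} (hj : j < ω_ 2)
    (hβ : β < ω₁) : ∃ q : Nd e E X, p ≤ q ∧ p.len < q.len ∧ β ≤ q.len ∧
      ∃ ξ < q.len, q.val ξ = j := by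
  classical
  obtain ⟨v, hv, hv'⟩ := bdd2 (cls e p.val p.len)
    ((Cardinal.le_aleph0_iff_set_countable.2 (cls_countable p.val p.len_lt)).trans
      (Cardinal.aleph0_le_aleph 1)) (cls_lt he p.val p.val_lt p.len_lt)
  let s1 := Order.succ p.len
  let s2 := Order.succ s1
  let s3 := Order.succ s2
  have h01 : p.len < s1 := Order.lt_succ _
  have h12 : s1 < s2 := Order.lt_succ _
  have h23 : s2 < s3 := Order.lt_succ _
  let val : Ordinal.{0} → Ordinal.{0} := fun ξ => if ξ < p.len then p.val ξ else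
    if ξ = p.len then v else if ξ = s1 then j else if ξ = s2 then β else 0
  have hval0 : ∀ ξ < p.len, val ξ = p.val ξ := fun ξ hξ => if_pos hξ
  have hval1 : val p.len = v := by simp [val]
  have hval2 : val s1 = j := by
    simp only [val]
    rw [if_neg (not_lt_of_ge h01.le), if_neg h01.ne', if_pos trivial]
  have hval3 : val s2 = β := by
    simp only [val]
    rw [if_neg (not_lt_of_ge (h01.trans h12).le), if_neg (h01.trans h12).ne', if_neg h12.ne',
      if_pos trivial]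
  let q : Nd e E X := {
    len := max β s3
    val := val
    len_lt := max_lt hβ (succ_lt_omega (succ_lt_omega (succ_lt_omega p.len_lt)))
    val_lt := by
      intro ξ
      simp only [val]
      split_ifs
      · exact p.val_lt ξ
      · exact hv
      · exact hj
      · exact hβ.trans omega1_lt_omega2
      · exact Ordinal.omega_pos 2
    val_zero := by
      intro ξ hξ
      have h3 : s3 ≤ ξ := (le_max_right _ _).trans hξ
      simp only [val]
      rw [if_neg (not_lt_of_ge (((h01.trans h12).trans h23).le.trans h3)),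
        if_neg (((h01.trans h12).trans h23).trans_le h3).ne',
        if_neg ((h12.trans h23).trans_le h3).ne', if_neg (h23.trans_le h3).ne']
    ok := by
      intro δ hδ hcl
      rcases le_or_gt δ p.len with h | h
      · have hag : ∀ ξ < δ, val ξ = p.val ξ := fun ξ hξ => hval0 ξ (hξ.trans_le h)
        rw [closedPt_congr _ _ δ hag] at hcl
        obtain ⟨h1, h2, h3⟩ := p.ok δ h hcl
        rw [cls_congr _ _ δ hag]
        refine ⟨h1, h2, fun _ i hi => ?_⟩
        rcases h.eq_or_lt with rfl | h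
        · rw [hval1]
          exact hv' i hi
        · rw [hval0 δ h]
          exact h3 h i hi
      · exfalso
        have h1 : s1 < δ := hcl.1.2 _ h
        have h2 : s2 < δ := hcl.1.2 _ h1
        have h3 : s3 < δ := hcl.1.2 _ h2
        have h4 : β < δ := by
          refine hcl.2 β (Cl.base _ (Or.inr ⟨s2, h2, hval3⟩)) hβ
        exact absurd hδ (not_le_of_gt (max_lt h4 h3)) }
  refine ⟨q, ⟨((h01.trans h12).trans h23).le.trans (le_max_right _ _), fun ξ hξ => (hval0 ξ hξ).symm⟩,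
    ((h01.trans h12).trans h23).trans_le (le_max_right _ _), le_max_left _ _, s1,
    (h12.trans h23).trans_le (le_max_right _ _), hval2⟩

theorem Nd.mk_le (h2 : (2 : Cardinal.{0}) ^ ℵ₁ = ℵ_ 2) :
    #(Nd e E X) ≤ #(Set.Iio (ω_ 2 : Ordinal.{0})) := by
  have h1 : #(Nd e E X) ≤ #(Set.Iio (ω₁ : Ordinal.{0}) ×
      (Set.Iio (ω₁ : Ordinal.{0}) → Set.Iio (ω_ 2 : Ordinal.{0}))) := by
    refine Cardinal.mk_le_of_injective (f := fun p : Nd e E X =>
      ((⟨p.len, p.len_lt⟩ : Set.Iio (ω₁ : Ordinal.{0})),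
      fun ξ : Set.Iio (ω₁ : Ordinal.{0}) => (⟨p.val ξ.1, p.val_lt ξ.1⟩ :
        Set.Iio (ω_ 2 : Ordinal.{0})))) ?_
    intro p q h
    rw [Prod.mk.injEq] at h
    have h1 : p.len = q.len := congrArg Subtype.val h.1
    refine Nd.ext' h1 (funext fun ξ => ?_)
    rcases lt_or_ge ξ ω₁ with h2 | h2
    · exact congrArg Subtype.val (congrFun h.2 ⟨ξ, h2⟩)
    · rw [p.val_zero ξ (p.len_lt.le.trans h2), q.val_zero ξ (q.len_lt.le.trans h2)]
  refine h1.trans ?_
  rw [Cardinal.mk_prod, Cardinal.lift_id, Cardinal.lift_id, Cardinal.mk_pi, Cardinal.prod_const,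
    Cardinal.lift_id, Cardinal.lift_id, Cardinal.mk_Iio_ordinal, Cardinal.mk_Iio_ordinal,
    Ordinal.card_omega, Ordinal.card_omega, ← h2, ← Cardinal.lift_power, ← Cardinal.power_mul,
    Cardinal.mul_eq_self (Cardinal.aleph0_le_aleph 1), ← Cardinal.lift_mul, Cardinal.lift_le]
  calc ℵ₁ * 2 ^ ℵ₁ ≤ 2 ^ ℵ₁ * 2 ^ ℵ₁ := mul_le_mul' (Cardinal.cantor _).le le_rfl
    _ = 2 ^ ℵ₁ := Cardinal.mul_eq_self (by rw [h2]; exact Cardinal.aleph0_le_aleph 2)

end

theorem taskP3 : TaskP3 := by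
  classical
  intro e E X I Y he h2 hE hI hX hY hYI
  refine ⟨fun α hα => ?_, fun hns => ?_⟩
  · obtain ⟨q, _, _, h3, _⟩ := Nd.exists_ext he (⊥ : Nd e E X) (Ordinal.omega_pos 2) hα
    exact ⟨q.cut α h3, rfl⟩
  obtain ⟨f, hf1, hf2⟩ := hns
  have hf2' : ∀ s : Nd e E X, ∃ c : Nd e E X → ℕ, ∀ a, (a ∈ {p : Nd e E X | p.len ∈ Y} ∧ f a = s) →
      ∀ b, (b ∈ {p : Nd e E X | p.len ∈ Y} ∧ f b = s) → a < b → c a ≠ c b :=
    fun s => (special_iff _).1 (hf2 s)
  choose cc hcc using hf2'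
  let c : Nd e E X → ℕ := fun p => cc (f p) p
  have hc : ∀ p q : Nd e E X, p.len ∈ Y → q.len ∈ Y → f p = f q → p < q → c p ≠ c q := by
    intro p q hp hq hpq hlt
    have h3 := hcc (f p) p ⟨hp, rfl⟩ q ⟨hq, hpq.symm⟩ hlt
    simp only [c]
    rw [← hpq]
    exact h3
  -- codes
  obtain ⟨φ⟩ : Nonempty (Nd e E X ↪ Set.Iio (ω_ 2 : Ordinal.{0})) := Nd.mk_le h2
  let code : Nd e E X → Ordinal.{0} := fun p => (φ p).1
  have hcode : ∀ p, code p < ω_ 2 := fun p => (φ p).2
  have hcinj : Function.Injective code := Subtype.val_injective.comp φ.injective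
  let dc : Ordinal.{0} → Nd e E X := Function.invFun code
  have hdc : ∀ p, dc (code p) = p := Function.leftInverse_invFun hcinj
  -- the operations
  have hext : ∀ (p : Nd e E X) (j β : Ordinal.{0}), ∃ q : Nd e E X, p ≤ q ∧
      (j < ω_ 2 → β < ω₁ → p.len < q.len ∧ β ≤ q.len ∧ ∃ ξ < q.len, q.val ξ = j) := by
    intro p j β
    by_cases h : j < ω_ 2 ∧ β < ω₁
    · obtain ⟨q, h3, h4⟩ := p.exists_ext he h.1 h.2
      exact ⟨q, h3, fun _ _ => h4⟩
    · exact ⟨p, le_rfl, fun h3 h4 => absurd ⟨h3, h4⟩ h⟩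
  choose ex hex1 hex2 using hext
  have hcut : ∀ (p : Nd e E X) (ξ : Ordinal.{0}), ∃ q : Nd e E X, q ≤ p ∧ (ξ ≤ p.len → q.len = ξ) := by
    intro p ξ
    by_cases h : ξ ≤ p.len
    · exact ⟨p.cut ξ h, p.cut_le ξ h, fun _ => rfl⟩
    · exact ⟨p, le_rfl, fun h' => absurd h' h⟩
  choose ct hct1 hct2 using hcut
  have hdec : ∀ (p s : Nd e E X) (n : ℕ), ∃ q : Nd e E X, p ≤ q ∧
      ((∃ r, p ≤ r ∧ r.len ∈ Y ∧ f r = s ∧ c r = n) → q.len ∈ Y ∧ f q = s ∧ c q = n) := by
    intro p s n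
    by_cases h : ∃ r, p ≤ r ∧ r.len ∈ Y ∧ f r = s ∧ c r = n
    · obtain ⟨r, h3, h4⟩ := h
      exact ⟨r, h3, fun _ => h4⟩
    · exact ⟨p, le_rfl, fun h' => absurd h' h⟩
  choose de hde1 hde2 using hdec
  have hel : ∀ p : Nd e E X, ∃ el : ℕ → Ordinal.{0}, (∀ n, el n < ω_ 2) ∧
      ∀ a ∈ cls e p.val p.len, ∃ n, el n = a := by
    intro p
    rcases (cls e p.val p.len).eq_empty_or_nonempty with h | h
    · exact ⟨fun _ => 0, fun _ => Ordinal.omega_pos 2, fun a ha => by rw [h] at ha; exact ha.elim⟩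
    · obtain ⟨el, hel⟩ := (cls_countable p.val p.len_lt).exists_eq_range h
      refine ⟨el, fun n => cls_lt he p.val p.val_lt p.len_lt _ (hel ▸ ⟨n, rfl⟩), fun a ha => ?_⟩
      rw [hel] at ha
      exact ha
  choose el hel1 hel2 using hel
  let F : ℕ → Ordinal.{0} → Ordinal.{0} → Ordinal.{0} → Ordinal.{0} := fun n a b d =>
    match n with
    | 0 => code (ex (dc a) b d)
    | 1 => (dc a).len
    | 2 => code (ct (dc a) b)
    | 3 => code ⊥
    | 4 => Order.succ a
    | (n + 5) => if n % 2 = 0 then el (dc a) (n / 2) else code (de (dc a) (dc b) (n / 2))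
  have hF : ∀ n, ∀ a < ω_ 2, ∀ b < ω_ 2, ∀ d < ω_ 2, F n a b d < ω_ 2 := by
    intro n a ha b hb d hd
    match n with
    | 0 => exact hcode _
    | 1 => exact (dc a).len_lt.trans omega1_lt_omega2
    | 2 => exact hcode _
    | 3 => exact hcode _
    | 4 => exact succ_lt_omega ha
    | (n + 5) =>
      simp only [F]
      split_ifs
      · exact hel1 _ _
      · exact hcode _
  obtain ⟨ε, hεE, δ, hδY, M, hMε, hMc, hMF, hδlim, hMδ, hMcof, hMX⟩ :=
    taskP2 F E X I Y hF hE.1 hE.2.1 hE.2.2.1 hI hX hY hYI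
  have hδ1 : δ < ω₁ := hY hδY
  have hδM : ∀ ξ < δ, ξ ∈ M := by
    intro ξ hξ
    have h3 : ξ ∈ M ∩ Set.Iio ω₁ := by
      rw [hMδ]
      exact hξ
    exact h3.1
  have hMδ' : ∀ ξ ∈ M, ξ < ω₁ → ξ < δ := by
    intro ξ hξ h3
    have h4 : ξ ∈ M ∩ Set.Iio ω₁ := ⟨hξ, h3⟩
    rw [hMδ] at h4
    exact h4
  have h0M : 0 ∈ M := hδM 0 hδlim.1
  have hε2 : ε < ω_ 2 := hE.1 hεE
  have hM2 : ∀ a ∈ M, a < ω_ 2 := fun a ha => lt_trans (hMε ha) hε2
  -- closure properties
  have hMex : ∀ p : Nd e E X, code p ∈ M → ∀ j ∈ M, ∀ β ∈ M, code (ex p j β) ∈ M := by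
    intro p hp j hj β hβ
    have h3 := hMF 0 (code p) hp j hj β hβ
    simp only [F, hdc] at h3
    exact h3
  have hMlen : ∀ p : Nd e E X, code p ∈ M → p.len < δ := by
    intro p hp
    have h3 := hMF 1 (code p) hp 0 h0M 0 h0M
    simp only [F, hdc] at h3
    exact hMδ' _ h3 p.len_lt
  have hMct : ∀ p : Nd e E X, code p ∈ M → ∀ ξ ∈ M, code (ct p ξ) ∈ M := by
    intro p hp ξ hξ
    have h3 := hMF 2 (code p) hp ξ hξ 0 h0M
    simp only [F, hdc] at h3
    exact h3
  have hMbot : code (⊥ : Nd e E X) ∈ M := hMF 3 0 h0M 0 h0M 0 h0M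
  have hMel : ∀ p : Nd e E X, code p ∈ M → ∀ a ∈ cls e p.val p.len, a ∈ M := by
    intro p hp a ha
    obtain ⟨n, rfl⟩ := hel2 p a ha
    have h3 := hMF (2 * n + 5) (code p) hp 0 h0M 0 h0M
    have h4 : (2 * n) % 2 = 0 := by omega
    have h5 : (2 * n) / 2 = n := by omega
    simp only [F, hdc, h4, h5, if_true] at h3
    exact h3
  -- the construction
  obtain ⟨ν, hν⟩ := hMc.exists_eq_range ⟨0, h0M⟩
  have hνM : ∀ k, ν k ∈ M := fun k => hν ▸ ⟨k, rfl⟩
  let St := {p : Nd e E X // code p ∈ M}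
  have hstep : ∀ (m : ℕ) (p : St), ∃ q : St, p.1 ≤ q.1 ∧
      (∃ ξ < q.1.len, q.1.val ξ = ν m.unpair.1) ∧ (ν m.unpair.1 < ω₁ → ν m.unpair.1 ≤ q.1.len) ∧
      (∀ s : Nd e E X, code s = ν m.unpair.1 → ∀ r, q.1 ≤ r → q.1.len < r.len → r.len ∈ Y →
        f r = s → c r ≠ m.unpair.2) := by
    intro m p
    let a := ν m.unpair.1
    have ha : a ∈ M := hνM _
    let β := if a < ω₁ then a else 0
    have hβM : β ∈ M := by
      simp only [β]
      split_ifs
      · exact ha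
      · exact h0M
    have hβ1 : β < ω₁ := by
      simp only [β]
      split_ifs with h
      · exact h
      · exact Ordinal.omega_pos 1
    have h3 := hex2 p.1 a β (hM2 a ha) hβ1
    have h4 : code (ex p.1 a β) ∈ M := hMex p.1 p.2 a ha β hβM
    refine ⟨⟨de (ex p.1 a β) (dc a) m.unpair.2, ?_⟩, ?_, ?_, ?_, ?_⟩
    · have h6 := hMF (2 * m.unpair.2 + 1 + 5) (code (ex p.1 a β)) h4 a ha 0 h0M
      have h7 : ¬ (2 * m.unpair.2 + 1) % 2 = 0 := by omega
      have h8 : (2 * m.unpair.2 + 1) / 2 = m.unpair.2 := by omega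
      simp only [F, hdc, h7, h8, if_false] at h6
      exact h6
    · exact (hex1 _ _ _).trans (hde1 _ _ _)
    · obtain ⟨ξ, h5, h6⟩ := h3.2.2
      have h7 := hde1 (ex p.1 a β) (dc a) m.unpair.2
      exact ⟨ξ, h5.trans_le h7.1, (h7.2 ξ h5).symm.trans h6⟩
    · intro h5
      have h6 : β = a := if_pos h5
      have h7 := hde1 (ex p.1 a β) (dc a) m.unpair.2
      have h8 : a ≤ (ex p.1 a β).len := by
        have h9 := h3.2.1
        rw [h6] at h9 ⊢
        exact h9
      exact h8.trans h7.1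
    · intro s hs r hr hlen hrY hfr hcr
      have hs' : dc a = s := (congrArg dc hs.symm).trans (hdc s)
      have h5 := hde2 (ex p.1 a β) (dc a) m.unpair.2
        ⟨r, (hde1 _ _ _).trans hr, hrY, hfr.trans hs'.symm, hcr⟩
      refine hc _ r h5.1 hrY (h5.2.1.trans (hs'.trans hfr.symm)) (lt_of_le_of_ne hr ?_)
        (h5.2.2.trans hcr.symm)
      intro h6
      exact lt_irrefl r.len (lt_of_eq_of_lt (congrArg Nd.len h6.symm) hlen)
  choose nx hnx using hstep
  let p : ℕ → St := fun k => Nat.rec ⟨⊥, hMbot⟩ (fun k q => nx k q) k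
  have hps : ∀ k, p (k + 1) = nx k (p k) := fun k => rfl
  have hmono : Monotone fun k => (p k).1 := monotone_nat_of_le_succ fun k => by
    rw [hps]
    exact (hnx k (p k)).1
  have hagree : ∀ k m ξ, ξ < (p k).1.len → ξ < (p m).1.len → (p k).1.val ξ = (p m).1.val ξ := by
    intro k m ξ hk hm
    rcases le_total k m with h | h
    · exact (hmono h).2 ξ hk
    · exact ((hmono h).2 ξ hm).symm
  let val : Ordinal.{0} → Ordinal.{0} := fun ξ =>
    if h : ∃ k, ξ < (p k).1.len then (p (Classical.choose h)).1.val ξ else 0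
  have hval : ∀ k ξ, ξ < (p k).1.len → val ξ = (p k).1.val ξ := by
    intro k ξ hξ
    have h : ∃ k, ξ < (p k).1.len := ⟨k, hξ⟩
    simp only [val, dif_pos h]
    exact hagree _ _ ξ (Classical.choose_spec h) hξ
  have hstage : ∀ a ∈ M, ∀ n : ℕ, ∃ m : ℕ, ν m.unpair.1 = a ∧ m.unpair.2 = n := by
    intro a ha n
    rw [hν] at ha
    obtain ⟨k, rfl⟩ := ha
    exact ⟨Nat.pair k n, by simp, by simp⟩
  have hcof : ∀ ξ < δ, ∃ k, ξ < (p k).1.len := by
    intro ξ hξ
    have h3 : Order.succ ξ < δ := hδlim.2 ξ hξ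
    obtain ⟨m, hm, _⟩ := hstage (Order.succ ξ) (hδM _ h3) 0
    refine ⟨m + 1, ?_⟩
    rw [hps]
    have h4 := (hnx m (p m)).2.2.1
    rw [hm] at h4
    exact (Order.lt_succ ξ).trans_le (h4 (h3.trans hδ1))
  have hcls : cls e val δ = M := by
    apply Set.Subset.antisymm
    · intro a ha
      obtain ⟨ξ, hξ, h3⟩ := cls_fin val hδlim ha
      obtain ⟨k, hk⟩ := hcof ξ hξ
      have h4 : cls e val ξ = cls e (p k).1.val ξ := cls_congr _ _ _ fun η hη =>
        hval k η (hη.trans hk)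
      rw [h4] at h3
      exact hMel _ (p k).2 a (cls_mono _ hk.le h3)
    · intro a ha
      obtain ⟨m, hm, _⟩ := hstage a ha 0
      obtain ⟨ξ, h3, h4⟩ := (hnx m (p m)).2.1
      rw [hm] at h4
      have h5 : ξ < (p (m + 1)).1.len := h3
      refine Cl.base _ (Or.inr ⟨ξ, h5.trans (hMlen _ (p (m + 1)).2), ?_⟩)
      rw [hval (m + 1) ξ h5]
      exact h4
  let r : Nd e E X := {
    len := δ
    val := val
    len_lt := hδ1
    val_lt := by
      intro ξ
      simp only [val]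
      split_ifs
      · exact Nd.val_lt _ _
      · exact Ordinal.omega_pos 2
    val_zero := by
      intro ξ hξ
      have h : ¬ ∃ k, ξ < (p k).1.len := fun ⟨k, hk⟩ =>
        absurd (hk.trans (hMlen _ (p k).2)) (not_lt_of_ge hξ)
      simp only [val, dif_neg h]
    ok := by
      intro δ' hδ' hcl
      rcases hδ'.eq_or_lt with rfl | hδ'
      · rw [hcls]
        exact ⟨⟨ε, hεE, fun i hi => hMε hi, hMcof⟩, hMX, fun h => absurd h (lt_irrefl _)⟩
      · obtain ⟨k, hk⟩ := hcof δ' hδ'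
        have hag : ∀ ξ < δ', val ξ = (p k).1.val ξ := fun ξ hξ => hval k ξ (hξ.trans hk)
        rw [closedPt_congr _ _ δ' hag] at hcl
        obtain ⟨h3, h4, h5⟩ := (p k).1.ok δ' hk.le hcl
        rw [cls_congr _ _ δ' hag]
        refine ⟨h3, h4, fun _ i hi => ?_⟩
        rw [hval k δ' hk]
        exact h5 hk i hi }
  have hpr : ∀ k, (p k).1 ≤ r := fun k => ⟨(hMlen _ (p k).2).le, fun ξ hξ => (hval k ξ hξ).symm⟩
  have hrne : r ≠ ⊥ := by
    intro h
    have h3 : r.len = (⊥ : Nd e E X).len := by rw [h]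
    exact hδlim.1.ne' h3
  have hsr : f r < r := hf1 r hδY hrne
  have hslen : (f r).len < δ := Nd.len_strict hsr
  obtain ⟨k, hk⟩ := hcof _ hslen
  have hsk : f r = ct (p k).1 (f r).len := by
    refine Nd.eq_of_len hsr.le ((hct1 _ _).trans (hpr k)) ?_
    rw [hct2 _ _ hk.le]
  have hsM : code (f r) ∈ M := by
    rw [hsk]
    exact hMct _ (p k).2 _ (hδM _ hslen)
  obtain ⟨m, hm, hm'⟩ := hstage _ hsM (c r)
  have h3 := (hnx m (p m)).2.2.2 (f r) hm.symm r (hpr (m + 1)) (hMlen _ (p (m + 1)).2) hδY rfl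
  exact h3 hm'.symm

end Pool.Agent.R595.NST
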