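import Pool.Agent.R595.NST.Basic

/-!
# The tree for the positive half: definitions and subtasks
-/

set_option autoImplicit false

namespace Pool.Agent.R595.NST

open Cardinal Ordinal

/-- `δ` is a limit ordinal -/
def Lim (δ : Ordinal.{0}) : Prop := 0 < δ ∧ ∀ ξ < δ, Order.succ ξ < δ

/-- `e i` maps `ω₁` onto `i`, for `0 < i < ω₂` -/
structure GoodE (e : Ordinal.{0} → Ordinal.{0} → Ordinal.{0}) : Prop where
  lt : ∀ i η, e i η < ω_ 2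
  img : ∀ i, 0 < i → i < ω_ 2 → e i '' Set.Iio ω₁ = Set.Iio i

/-- the inverse of `e` -/
noncomputable def inv (e : Ordinal.{0} → Ordinal.{0} → Ordinal.{0}) (i j : Ordinal.{0}) :
    Ordinal.{0} :=
  sInf {η | η < ω₁ ∧ e i η = j}

/-- the closure of `A` under `e`, `inv e` and successor -/
inductive Cl (e : Ordinal.{0} → Ordinal.{0} → Ordinal.{0}) (A : Set Ordinal.{0}) :
    Ordinal.{0} → Prop
  | base (a : Ordinal.{0}) (h : a ∈ A) : Cl e A a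
  | e (i η : Ordinal.{0}) (hi : Cl e A i) (hη : Cl e A η) : Cl e A (e i η)
  | inv (i j : Ordinal.{0}) (hi : Cl e A i) (hj : Cl e A j) : Cl e A (inv e i j)
  | succ (i : Ordinal.{0}) (hi : Cl e A i) : Cl e A (Order.succ i)

/-- the countable set attached to the restriction of `x` to `δ` -/
def cls (e : Ordinal.{0} → Ordinal.{0} → Ordinal.{0}) (x : Ordinal.{0} → Ordinal.{0})
    (δ : Ordinal.{0}) : Set Ordinal.{0} :=
  {a | Cl e (Set.Iio δ ∪ x '' Set.Iio δ) a}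

/-- `δ` is a closed limit point of `x` -/
def ClosedPt (e : Ordinal.{0} → Ordinal.{0} → Ordinal.{0}) (x : Ordinal.{0} → Ordinal.{0})
    (δ : Ordinal.{0}) : Prop :=
  Lim δ ∧ ∀ η ∈ cls e x δ, η < ω₁ → η < δ

/-- the nodes of the tree: functions `x` from `len < ω₁` to `ω₂` such that, for every closed limit
point `δ ≤ len` of `x`, the set `cls e x δ` is cofinal in some member of `E`, `δ` is not in `X j`
for `j ∈ cls e x δ`, and `x δ` is above `cls e x δ` if `δ < len` -/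
structure Nd (e : Ordinal.{0} → Ordinal.{0} → Ordinal.{0}) (E : Set Ordinal.{0})
    (X : Ordinal.{0} → Set Ordinal.{0}) where
  len : Ordinal.{0}
  val : Ordinal.{0} → Ordinal.{0}
  len_lt : len < ω₁
  val_lt : ∀ ξ, val ξ < ω_ 2
  val_zero : ∀ ξ, len ≤ ξ → val ξ = 0
  ok : ∀ δ ≤ len, ClosedPt e val δ →
    (∃ ε ∈ E, (∀ i ∈ cls e val δ, i < ε) ∧ ∀ β < ε, ∃ i ∈ cls e val δ, β < i) ∧
    (∀ j ∈ cls e val δ, δ ∉ X j) ∧
    (δ < len → ∀ i ∈ cls e val δ, i < val δ)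

variable {e : Ordinal.{0} → Ordinal.{0} → Ordinal.{0}} {E : Set Ordinal.{0}}
  {X : Ordinal.{0} → Set Ordinal.{0}}

theorem Nd.ext' {p q : Nd e E X} (h1 : p.len = q.len) (h2 : p.val = q.val) : p = q := by
  cases p
  cases q
  cases h1
  cases h2
  rfl

instance : PartialOrder (Nd e E X) where
  le p q := p.len ≤ q.len ∧ ∀ ξ < p.len, p.val ξ = q.val ξ
  le_refl p := ⟨le_rfl, fun _ _ => rfl⟩
  le_trans p q r h1 h2 := ⟨h1.1.trans h2.1, fun ξ hξ =>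
    (h1.2 ξ hξ).trans (h2.2 ξ (hξ.trans_le h1.1))⟩
  le_antisymm p q h1 h2 := by
    have h3 := le_antisymm h1.1 h2.1
    refine Nd.ext' h3 (funext fun ξ => ?_)
    rcases lt_or_ge ξ p.len with h | h
    · exact h1.2 ξ h
    · rw [p.val_zero ξ h, q.val_zero ξ (h3 ▸ h)]

instance : OrderBot (Nd e E X) where
  bot := ⟨0, fun _ => 0, Ordinal.omega_pos 1, fun _ => Ordinal.omega_pos 2, fun _ _ => rfl,
    fun δ h1 h2 => absurd (h2.1.1.trans_le h1) (lt_irrefl _)⟩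
  bot_le p := ⟨zero_le, fun ξ hξ => absurd hξ (not_lt_bot)⟩

/-- **P1** -/
def TaskP1 : Prop := ∀ (e : Ordinal.{0} → Ordinal.{0} → Ordinal.{0}) (E : Set Ordinal.{0})
  (X : Ordinal.{0} → Set Ordinal.{0}), GoodE e → NonReflecting E →
  ∀ i < ω_ 2, NSup {p : Nd e E X | p.len ∈ X i}

/-- **P2** -/
def TaskP2 : Prop := ∀ (F : ℕ → Ordinal.{0} → Ordinal.{0} → Ordinal.{0} → Ordinal.{0})
  (E : Set Ordinal.{0}) (X : Ordinal.{0} → Set Ordinal.{0}) (I : Set (Set Ordinal.{0}))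
  (Y : Set Ordinal.{0}), (∀ n, ∀ a < ω_ 2, ∀ b < ω_ 2, ∀ c < ω_ 2, F n a b c < ω_ 2) →
  E ⊆ Set.Iio (ω_ 2) → (∀ α ∈ E, α.cof = ℵ₀) → StatIn E (ω_ 2) → IsNormalIdeal I →
  (∀ j < ω_ 2, X j ∈ I) → Y ⊆ Set.Iio ω₁ → Y ∉ I →
  ∃ ε ∈ E, ∃ δ ∈ Y, ∃ M : Set Ordinal.{0}, M ⊆ Set.Iio ε ∧ M.Countable ∧
    (∀ n, ∀ a ∈ M, ∀ b ∈ M, ∀ c ∈ M, F n a b c ∈ M) ∧ Lim δ ∧ M ∩ Set.Iio ω₁ = Set.Iio δ ∧
    (∀ β < ε, ∃ i ∈ M, β < i) ∧ ∀ j ∈ M, δ ∉ X j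

/-- **P3** -/
def TaskP3 : Prop := ∀ (e : Ordinal.{0} → Ordinal.{0} → Ordinal.{0}) (E : Set Ordinal.{0})
  (X : Ordinal.{0} → Set Ordinal.{0}) (I : Set (Set Ordinal.{0})) (Y : Set Ordinal.{0}),
  GoodE e → (2 : Cardinal.{0}) ^ ℵ₁ = ℵ_ 2 → NonReflecting E → IsNormalIdeal I →
  (∀ j < ω_ 2, X j ∈ I) → Y ⊆ Set.Iio ω₁ → Y ∉ I →
  (∀ α < ω₁, ∃ p : Nd e E X, p.len = α) ∧ ¬ NSup {p : Nd e E X | p.len ∈ Y}

end Pool.Agent.R595.NST
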