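import Pool.Agent.R595.NST.Cut

/-!
# The positive half: assembly
-/

set_option autoImplicit false

namespace Pool.Agent.R595.NST

open Cardinal Ordinal

/-- there is a `GoodE` -/
theorem exists_goodE : ∃ e, GoodE e := by
  classical
  have h0 : ∀ i : Ordinal.{0}, ∃ f : Ordinal.{0} → Ordinal.{0}, (∀ η, f η < ω_ 2) ∧
      (0 < i → i < ω_ 2 → f '' Set.Iio ω₁ = Set.Iio i) := by
    intro i
    by_cases hi : 0 < i ∧ i < ω_ 2
    · have h1 : #(Set.Iio i) ≤ #(Set.Iio (ω₁ : Ordinal.{0})) := by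
        rw [Cardinal.mk_Iio_ordinal, Cardinal.mk_Iio_ordinal, Cardinal.lift_le]
        have h2 : i.card < ℵ_ 2 := by
          rw [Cardinal.lt_ord.symm, Cardinal.ord_aleph]
          exact hi.2
        have h3 : (ℵ_ 2 : Cardinal.{0}) = Order.succ ℵ₁ := by
          rw [Cardinal.succ_aleph, one_add_one_eq_two]
        rw [h3, Order.lt_succ_iff] at h2
        simpa using h2
      have : Nonempty (Set.Iio i) := ⟨⟨0, hi.1⟩⟩
      obtain ⟨f⟩ := h1
      have hg : Function.Surjective (Function.invFun f) := Function.invFun_surjective f.injective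
      refine ⟨fun η => if h : η < ω₁ then (Function.invFun f ⟨η, h⟩ : Set.Iio i).1 else 0, ?_, ?_⟩
      · intro η
        dsimp only
        split
        · exact lt_trans (Function.invFun f _ : Set.Iio i).2 hi.2
        · exact Ordinal.omega_pos 2
      · intro _ _
        ext a
        constructor
        · rintro ⟨η, hη, rfl⟩
          have hη' : η < ω₁ := hη
          simp only [dif_pos hη']
          exact (Function.invFun f ⟨η, hη'⟩ : Set.Iio i).2
        · intro ha
          obtain ⟨⟨η, hη⟩, h5⟩ := hg ⟨a, ha⟩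
          refine ⟨η, hη, ?_⟩
          have hη' : η < ω₁ := hη
          simp only [dif_pos hη']
          rw [h5]
    · exact ⟨fun _ => 0, fun _ => Ordinal.omega_pos 2, fun h1 h2 => absurd ⟨h1, h2⟩ hi⟩
  choose e he he' using h0
  exact ⟨e, he, he'⟩

/-- an enumeration of a family of subsets of `ω₁` -/
theorem exists_enum (h2 : (2 : Cardinal.{0}) ^ ℵ₁ = ℵ_ 2) (I : Set (Set Ordinal.{0}))
    (hI : ∀ Y ∈ I, Y ⊆ Set.Iio ω₁) (hne : I.Nonempty) :
    ∃ X : Ordinal.{0} → Set Ordinal.{0}, (∀ j, X j ∈ I) ∧ ∀ Y ∈ I, ∃ j < ω_ 2, X j = Y := by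
  classical
  have h1 : #I ≤ #(Set.Iio (ω_ 2 : Ordinal.{0})) := by
    have h3 : #I ≤ #(𝒫 (Set.Iio (ω₁ : Ordinal.{0}))) := Cardinal.mk_le_mk_of_subset hI
    refine h3.trans ?_
    rw [Cardinal.mk_powerset, Cardinal.mk_Iio_ordinal, Cardinal.mk_Iio_ordinal]
    have h4 : (2 : Cardinal.{1}) ^ Cardinal.lift.{1} (ω₁ : Ordinal.{0}).card =
        Cardinal.lift.{1} ((2 : Cardinal.{0}) ^ ℵ₁) := by
      rw [Cardinal.lift_power, Cardinal.lift_two]
      congr 1
    rw [h4, h2]
    simp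
  obtain ⟨f⟩ := h1
  have : Nonempty I := hne.to_subtype
  have hg : Function.Surjective (Function.invFun f) := Function.invFun_surjective f.injective
  obtain ⟨Y0, hY0⟩ := hne
  refine ⟨fun j => if h : j < ω_ 2 then (Function.invFun f ⟨j, h⟩ : I).1 else Y0, ?_, ?_⟩
  · intro j
    dsimp only
    split
    · exact (Function.invFun f _ : I).2
    · exact hY0
  · intro Y hY
    obtain ⟨⟨j, hj⟩, h5⟩ := hg ⟨Y, hY⟩
    have hj' : j < ω_ 2 := hj
    refine ⟨j, hj', ?_⟩
    simp only [dif_pos hj']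
    rw [h5]

section
variable {e : Ordinal.{0} → Ordinal.{0} → Ordinal.{0}} {E : Set Ordinal.{0}}
  {X : Ordinal.{0} → Set Ordinal.{0}}

instance : Small.{0} (Nd e E X) := by
  refine small_of_injective (β := Set.Iio (ω₁ : Ordinal.{0}) ×
    (Set.Iio (ω₁ : Ordinal.{0}) → Set.Iio (ω_ 2 : Ordinal.{0})))
    (f := fun p => (⟨p.len, p.len_lt⟩, fun ξ => ⟨p.val ξ.1, p.val_lt ξ.1⟩)) ?_
  intro p q h
  rw [Prod.mk.injEq] at h
  have h1 : p.len = q.len := congrArg Subtype.val h.1
  refine Nd.ext' h1 (funext fun ξ => ?_)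
  rcases lt_or_ge ξ ω₁ with h2 | h2
  · exact congrArg Subtype.val (congrFun h.2 ⟨ξ, h2⟩)
  · rw [p.val_zero ξ (p.len_lt.le.trans h2), q.val_zero ξ (q.len_lt.le.trans h2)]

/-- the small copy of the tree -/
abbrev Sm (e : Ordinal.{0} → Ordinal.{0} → Ordinal.{0}) (E : Set Ordinal.{0})
    (X : Ordinal.{0} → Set Ordinal.{0}) : Type := Shrink.{0} (Nd e E X)

noncomputable abbrev dn (t : Sm e E X) : Nd e E X := (equivShrink (Nd e E X)).symm t
noncomputable abbrev up (p : Nd e E X) : Sm e E X := equivShrink (Nd e E X) p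

noncomputable instance : PartialOrder (Sm e E X) :=
  PartialOrder.lift (fun t => dn t) (equivShrink (Nd e E X)).symm.injective

theorem dn_up (p : Nd e E X) : dn (up p) = p := (equivShrink (Nd e E X)).symm_apply_apply p
theorem up_dn (t : Sm e E X) : up (dn t) = t := (equivShrink (Nd e E X)).apply_symm_apply t

theorem dn_lt (s t : Sm e E X) : dn s < dn t ↔ s < t := Iff.rfl
theorem dn_le (s t : Sm e E X) : dn s ≤ dn t ↔ s ≤ t := Iff.rfl

noncomputable instance : OrderBot (Sm e E X) where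
  bot := up ⊥
  bot_le t := by
    rw [← dn_le, dn_up]
    exact bot_le

theorem dn_bot : dn (⊥ : Sm e E X) = ⊥ := dn_up ⊥

/-- the predecessors of a node -/
noncomputable def smIso (t : Sm e E X) : Set.Iio t ≃o (dn t).len.ToType :=
  OrderIso.trans (β := Set.Iio (dn t))
    { toFun := fun s => ⟨dn s.1, s.2⟩
      invFun := fun p => ⟨up p.1, by
        have h : p.1 < dn t := p.2
        rw [Set.mem_Iio, ← dn_lt, dn_up]
        exact h⟩
      left_inv := fun s => Subtype.ext (up_dn s.1)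
      right_inv := fun p => Subtype.ext (dn_up p.1)
      map_rel_iff' := Iff.rfl }
    ((dn t).predIso.trans ToType.mk)

noncomputable instance : Tree (Sm e E X) where
  wo t := by
    exact ((smIso t).toRelIsoLT.toRelEmbedding).isWellOrder

theorem ht_eq (t : Sm e E X) : ht t = (dn t).len := by
  have := Tree.wo t
  have h1 : ht t = Ordinal.type (fun a b : (dn t).len.ToType => a < b) :=
    Ordinal.type_eq.2 ⟨(smIso t).toRelIsoLT⟩
  rw [h1]
  exact type_toType _

theorem special_up {B : Set (Nd e E X)} (h : Special B) :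
    Special {t : Sm e E X | dn t ∈ B} := by
  rw [special_iff] at h ⊢
  obtain ⟨c, hc⟩ := h
  exact ⟨fun t => c (dn t), fun s hs t ht hst => hc _ hs _ ht hst⟩

theorem special_dn {B : Set (Nd e E X)} (h : Special {t : Sm e E X | dn t ∈ B}) :
    Special B := by
  rw [special_iff] at h ⊢
  obtain ⟨c, hc⟩ := h
  refine ⟨fun p => c (up p), fun s hs t ht hst => hc _ ?_ _ ?_ ?_⟩
  · rw [Set.mem_ofPred_eq, dn_up]
    exact hs
  · rw [Set.mem_ofPred_eq, dn_up]
    exact ht
  · rw [← dn_lt, dn_up, dn_up]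
    exact hst

theorem nsup_up {B : Set (Nd e E X)} (h : NSup B) : NSup {t : Sm e E X | dn t ∈ B} := by
  obtain ⟨f, h1, h2⟩ := h
  refine ⟨fun t => up (f (dn t)), fun t ht hne => ?_, fun s => ?_⟩
  · rw [← dn_lt, dn_up]
    refine h1 _ ht fun h => hne ?_
    rw [← up_dn t, h]
    rfl
  · refine (special_up (h2 (dn s))).mono ?_
    rintro t ⟨ht, hts⟩
    refine ⟨ht, ?_⟩
    rw [← hts, dn_up]

theorem nsup_dn {B : Set (Nd e E X)} (h : NSup {t : Sm e E X | dn t ∈ B}) : NSup B := by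
  obtain ⟨f, h1, h2⟩ := h
  refine ⟨fun p => dn (f (up p)), fun p hp hne => ?_, fun s => ?_⟩
  · have h3 : up p ∈ {t : Sm e E X | dn t ∈ B} := by
      rw [Set.mem_ofPred_eq, dn_up]
      exact hp
    have h4 := h1 _ h3 fun h => hne (by rw [← dn_up p, h, dn_bot])
    rw [← dn_lt, dn_up] at h4
    exact h4
  · refine special_dn ((h2 (up s)).mono ?_)
    rintro t ⟨ht, hts⟩
    refine ⟨ht, ?_⟩
    rw [← hts, up_dn, up_dn]

end

theorem taskP_of (h1 : TaskP1) (h3 : TaskP3) : TaskP := by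
  intro h2 ⟨E, hE⟩ I hI
  obtain ⟨e, he⟩ := exists_goodE
  obtain ⟨X, hX, hX'⟩ := exists_enum h2 I hI.sub
    ⟨{0}, hI.single 0 (Ordinal.omega_pos 1)⟩
  have hlen : ∀ α < ω₁, ∃ p : Nd e E X, p.len = α :=
    (h3 e E X I (Set.Iio ω₁) he h2 hE hI (fun j _ => hX j) subset_rfl hI.proper).1
  refine ⟨Sm e E X, inferInstance, ⟨fun t => ?_, fun α hα => ?_⟩, ?_⟩
  · rw [ht_eq]
    exact (dn t).len_lt
  · obtain ⟨p, hp⟩ := hlen α hα
    exact ⟨up p, by rw [ht_eq, dn_up, hp]⟩
  · ext Y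
    have h4 : {t : Sm e E X | ht t ∈ Y} = {t | dn t ∈ {p : Nd e E X | p.len ∈ Y}} := by
      ext t
      change ht t ∈ Y ↔ (dn t).len ∈ Y
      rw [ht_eq]
    constructor
    · rintro ⟨h5, h6⟩
      by_contra h7
      rw [h4] at h6
      exact (h3 e E X I Y he h2 hE hI (fun j _ => hX j) h5 h7).2 (nsup_dn h6)
    · intro hY
      obtain ⟨j, hj, rfl⟩ := hX' Y hY
      refine ⟨hI.sub _ (hX j), ?_⟩
      rw [h4]
      exact nsup_up (h1 e E X he hE j hj)

end Pool.Agent.R595.NST
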